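import Pool.Agent.Keisler.Semantics

/-!
# Embedding finite hypergraphs, and the back and forth argument
-/

universe u v w

open FirstOrder Language Structure

namespace Pool.Agent.Keisler

open Classical in
/-- A finite clique free family embeds into a structure with the extension property. -/
theorem embed_fin {n k : ℕ} (hn : 1 ≤ n) {M : Type u} [(hypLang k).Structure M]
    (hE : Ext n k M) {V : Type v} (E : Finset V → Prop)
    (hfree : ∀ Y : Finset V, Y.card = n + 1 → ∃ W ⊆ Y, W.card = k + 1 ∧ ¬ E W)
    (S : Finset V) :
    ∃ f : V → M, Set.InjOn f S ∧ ∀ W ⊆ S, W.card = k + 1 → (HE k (W.image f) ↔ E W) := by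
  induction S using Finset.induction_on with
  | empty =>
    obtain ⟨x, -, -⟩ := hE ∅ ∅ (by
      intro Y hY hc
      have := Finset.card_le_card hY
      rw [Finset.card_empty] at this
      omega)
    refine ⟨fun _ => x, by simp, fun W hW hc => ?_⟩
    have := Finset.card_le_card hW
    rw [Finset.card_empty] at this
    omega
  | insert a S' ha ih =>
    obtain ⟨f, hf, hfW⟩ := ih
    obtain ⟨x, hx, hxZ⟩ := hE (S'.image f)
      {Z | ∃ Z0 ⊆ S', Z0.image f = Z ∧ E (insert a Z0)} (by
        intro Y hY hc hcl
        obtain ⟨Y0, hY0, rfl⟩ := Finset.subset_image_iff.1 hY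
        have hY0' : Y0 ⊆ S' := by exact_mod_cast hY0
        have hinj : Set.InjOn f Y0 := hf.mono hY0
        rw [Finset.card_image_of_injOn hinj] at hc
        have haY : a ∉ Y0 := fun hh => ha (hY0' hh)
        obtain ⟨W, hW, hWc, hWn⟩ := hfree (insert a Y0)
          (by rw [Finset.card_insert_of_notMem haY, hc])
        by_cases haW : a ∈ W
        · have hsub : W.erase a ⊆ Y0 := by
            intro b hb
            have h1 := Finset.mem_erase.1 hb
            exact (Finset.mem_insert.1 (hW h1.2)).resolve_left h1.1
          refine ⟨(W.erase a).image f, Finset.image_subset_image hsub, ?_, ?_⟩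
          · rw [Finset.card_image_of_injOn (hinj.mono (by exact_mod_cast hsub)),
              Finset.card_erase_of_mem haW, hWc]
            rfl
          · rintro ⟨Z1, hZ1, hZe, hZE⟩
            apply hWn
            have : Z1 = W.erase a := by
              apply Finset.coe_injective
              apply (hf.image_eq_image_iff (by exact_mod_cast hZ1)
                (by exact_mod_cast hsub.trans hY0')).1
              have := congrArg (fun s : Finset M => (s : Set M)) hZe
              simpa using this
            rw [this, Finset.insert_erase haW] at hZE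
            exact hZE
        · exfalso
          have hsub : W ⊆ Y0 := by
            intro b hb
            refine (Finset.mem_insert.1 (hW hb)).resolve_left ?_
            rintro rfl
            exact haW hb
          apply hWn
          rw [← hfW W (hsub.trans hY0') hWc]
          exact hcl _ (Finset.image_subset_image hsub)
            (by rw [Finset.card_image_of_injOn (hinj.mono (by exact_mod_cast hsub)), hWc]))
    have hupd : ∀ Z ⊆ S', Z.image (Function.update f a x) = Z.image f := by
      intro Z hZ
      apply Finset.image_congr
      intro b hb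
      have : b ≠ a := by rintro rfl; exact ha (hZ hb)
      simp [Function.update_of_ne this]
    refine ⟨Function.update f a x, ?_, ?_⟩
    · intro b hb c hc hbc
      rw [Finset.coe_insert] at hb hc
      rcases hb with rfl | hb <;> rcases hc with rfl | hc
      · rfl
      · have hne : c ≠ b := by rintro rfl; exact ha hc
        rw [Function.update_self, Function.update_of_ne hne] at hbc
        exact absurd (hbc ▸ Finset.mem_image_of_mem f hc) hx
      · have hne : b ≠ c := by rintro rfl; exact ha hb
        rw [Function.update_self, Function.update_of_ne hne] at hbc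
        exact absurd (hbc ▸ Finset.mem_image_of_mem f hb) hx
      · have hne : b ≠ a := by rintro rfl; exact ha hb
        have hne' : c ≠ a := by rintro rfl; exact ha hc
        rw [Function.update_of_ne hne, Function.update_of_ne hne'] at hbc
        exact hf hb hc hbc
    · intro W hW hc
      by_cases haW : a ∈ W
      · have hsub : W.erase a ⊆ S' := by
          intro b hb
          have h1 := Finset.mem_erase.1 hb
          exact (Finset.mem_insert.1 (hW h1.2)).resolve_left h1.1
        have hWe : W.image (Function.update f a x) = insert x ((W.erase a).image f) := by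
          conv_lhs => rw [← Finset.insert_erase haW]
          rw [Finset.image_insert, hupd _ hsub, Function.update_self]
        rw [hWe, hxZ _ (Finset.image_subset_image hsub)
          (by rw [Finset.card_image_of_injOn (hf.mono (by exact_mod_cast hsub)),
            Finset.card_erase_of_mem haW, hc]; rfl)]
        constructor
        · rintro ⟨Z1, hZ1, hZe, hZE⟩
          have : Z1 = W.erase a := by
            apply Finset.coe_injective
            apply (hf.image_eq_image_iff (by exact_mod_cast hZ1)
              (by exact_mod_cast hsub)).1
            have := congrArg (fun s : Finset M => (s : Set M)) hZe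
            simpa using this
          rw [this, Finset.insert_erase haW] at hZE
          exact hZE
        · intro hEW
          exact ⟨W.erase a, hsub, rfl, by rwa [Finset.insert_erase haW]⟩
      · have hsub : W ⊆ S' := by
          intro b hb
          refine (Finset.mem_insert.1 (hW hb)).resolve_left ?_
          rintro rfl
          exact haW hb
        rw [hupd _ hsub]
        exact hfW W hsub hc

/-- Two tuples have the same quantifier free type. -/
def QFEq (k : ℕ) {M : Type u} {N : Type v} [(hypLang k).Structure M] [(hypLang k).Structure N]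
    {β : Type w} (a : β → M) (b : β → N) : Prop :=
  (∀ i j, a i = a j ↔ b i = b j) ∧
    ∀ x : Fin (k + 1) → β, Rel k (fun i => a (x i)) ↔ Rel k (fun i => b (x i))

section

variable {k : ℕ} {M : Type u} {N : Type v} [(hypLang k).Structure M] [(hypLang k).Structure N]
  {β : Type w} {a : β → M} {b : β → N}

theorem QFEq.symm (h : QFEq k a b) : QFEq k b a :=
  ⟨fun i j => (h.1 i j).symm, fun x => (h.2 x).symm⟩

theorem QFEq.comp {γ : Type*} (h : QFEq k a b) (g : γ → β) :
    QFEq k (fun c => a (g c)) (fun c => b (g c)) :=
  ⟨fun i j => h.1 (g i) (g j), fun x => h.2 fun i => g (x i)⟩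

open Classical in
theorem QFEq.image_sub (h : QFEq k a b) {J J' : Finset β} (hJ : J.image a ⊆ J'.image a) :
    J.image b ⊆ J'.image b := by
  intro y hy
  obtain ⟨i, hi, rfl⟩ := Finset.mem_image.1 hy
  obtain ⟨j, hj, hij⟩ := Finset.mem_image.1 (hJ (Finset.mem_image_of_mem a hi))
  exact Finset.mem_image.2 ⟨j, hj, (h.1 j i).1 hij⟩

open Classical in
theorem QFEq.image_eq (h : QFEq k a b) {J J' : Finset β} (hJ : J.image a = J'.image a) :
    J.image b = J'.image b :=
  (h.image_sub hJ.subset).antisymm (h.image_sub hJ.symm.subset)

open Classical in
theorem QFEq.card_le (h : QFEq k a b) (J : Finset β) :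
    (J.image a).card ≤ (J.image b).card := by
  rcases isEmpty_or_nonempty β with hβ | hβ
  · simp [Finset.eq_empty_of_isEmpty J]
  have key : ∀ x ∈ J.image a, ∃ j ∈ J, a j = x := fun x hx => Finset.mem_image.1 hx
  choose! g hg hg' using key
  refine Finset.card_le_card_of_injOn (fun x => b (g x)) ?_ ?_
  · intro x hx
    exact Finset.mem_coe.2 (Finset.mem_image_of_mem b (hg x hx))
  · intro x hx y hy hxy
    have := (h.1 _ _).2 hxy
    rwa [hg' x hx, hg' y hy] at this

open Classical in
theorem QFEq.card_eq (h : QFEq k a b) (J : Finset β) :
    (J.image a).card = (J.image b).card :=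
  (h.card_le J).antisymm (h.symm.card_le J)

open Classical in
theorem QFEq.HE_imp (h : QFEq k a b) {J : Finset β} (hJ : HE k (J.image a)) :
    HE k (J.image b) := by
  obtain ⟨x, hx, hxe⟩ := hJ
  have key : ∀ i, ∃ j ∈ J, a j = x i := by
    intro i
    have : x i ∈ J.image a := by
      rw [← hxe]; exact Finset.mem_image_of_mem x (Finset.mem_univ i)
    exact Finset.mem_image.1 this
  choose y hy hy' using key
  refine ⟨fun i => b (y i), (h.2 y).1 (by simpa [hy'] using hx), ?_⟩
  have h1 : (Finset.univ.image y).image a = J.image a := by
    rw [Finset.image_image, ← hxe]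
    apply Finset.image_congr
    intro i _
    exact hy' i
  have h2 := h.image_eq h1
  rw [Finset.image_image] at h2
  exact h2

open Classical in
theorem QFEq.HE_iff (h : QFEq k a b) (J : Finset β) :
    HE k (J.image a) ↔ HE k (J.image b) :=
  ⟨h.HE_imp, h.symm.HE_imp⟩

end

open Classical in
/-- Extending a partial isomorphism by one point. -/
theorem QFEq.extend {n k : ℕ} {M : Type u} {N : Type v} [(hypLang k).Structure M]
    [(hypLang k).Structure N] {β : Type w} {a : β → M} {b : β → N}
    (hM : IsHyp n k M) (hN : IsHyp n k N) (h : QFEq k a b) {x : M} {y : N}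
    (hx : ∀ i, a i ≠ x) (hy : ∀ i, b i ≠ y)
    (hZ : ∀ J : Finset β, (J.image b).card = k →
      (HE k (insert x (J.image a)) ↔ HE k (insert y (J.image b)))) :
    QFEq k (fun o : Option β => o.elim x a) (fun o : Option β => o.elim y b) := by
  have heq : ∀ o p : Option β, (o.elim x a = p.elim x a) ↔ (o.elim y b = p.elim y b) := by
    intro o p
    cases o with
    | none =>
      cases p with
      | none => simp
      | some j => exact ⟨fun hh => absurd hh.symm (hx j), fun hh => absurd hh.symm (hy j)⟩
    | some i =>
      cases p with
      | none => exact ⟨fun hh => absurd hh (hx i), fun hh => absurd hh (hy i)⟩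
      | some j => exact h.1 i j
  refine ⟨heq, fun g => ?_⟩
  rw [rel_iff hM, rel_iff hN]
  have hinj : Function.Injective (fun i => (g i).elim x a) ↔
      Function.Injective (fun i => (g i).elim y b) := by
    constructor
    · intro hi i j hij
      exact hi ((heq _ _).2 hij)
    · intro hi i j hij
      exact hi ((heq _ _).1 hij)
  rw [hinj]
  refine and_congr_right fun hgi => ?_
  have hJ0 : ∃ J : Finset β, ∀ j, j ∈ J ↔ ∃ i, g i = some j := by
    refine ⟨(Finset.univ.image g).eraseNone, fun j => ?_⟩
    simp [Finset.mem_eraseNone]
  obtain ⟨J, hJ⟩ := hJ0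
  by_cases hnone : ∃ i, g i = none
  · obtain ⟨i0, hi0⟩ := hnone
    have imM : Finset.univ.image (fun i => (g i).elim x a) = insert x (J.image a) := by
      ext c
      simp only [Finset.mem_image, Finset.mem_univ, true_and, Finset.mem_insert, hJ]
      constructor
      · rintro ⟨i, rfl⟩
        cases hgi' : g i with
        | none => exact Or.inl rfl
        | some j => exact Or.inr ⟨j, ⟨i, hgi'⟩, rfl⟩
      · rintro (rfl | ⟨j, ⟨i, hi⟩, rfl⟩)
        · exact ⟨i0, by rw [hi0]; rfl⟩
        · exact ⟨i, by rw [hi]; rfl⟩
    have imN : Finset.univ.image (fun i => (g i).elim y b) = insert y (J.image b) := by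
      ext c
      simp only [Finset.mem_image, Finset.mem_univ, true_and, Finset.mem_insert, hJ]
      constructor
      · rintro ⟨i, rfl⟩
        cases hgi' : g i with
        | none => exact Or.inl rfl
        | some j => exact Or.inr ⟨j, ⟨i, hgi'⟩, rfl⟩
      · rintro (rfl | ⟨j, ⟨i, hi⟩, rfl⟩)
        · exact ⟨i0, by rw [hi0]; rfl⟩
        · exact ⟨i, by rw [hi]; rfl⟩
    have hyJ : y ∉ J.image b := by
      intro hh
      obtain ⟨i, _, hi⟩ := Finset.mem_image.1 hh
      exact hy i hi
    have hcard : (J.image b).card = k := by
      have h1 : (Finset.univ.image (fun i => (g i).elim y b)).card = k + 1 := by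
        rw [Finset.card_image_of_injective _ hgi]; simp
      rw [imN, Finset.card_insert_of_notMem hyJ] at h1
      omega
    rw [imM, imN]
    exact hZ J hcard
  · push Not at hnone
    have imM : Finset.univ.image (fun i => (g i).elim x a) = J.image a := by
      ext c
      simp only [Finset.mem_image, Finset.mem_univ, true_and, hJ]
      constructor
      · rintro ⟨i, rfl⟩
        cases hgi' : g i with
        | none => exact absurd hgi' (hnone i)
        | some j => exact ⟨j, ⟨i, hgi'⟩, rfl⟩
      · rintro ⟨j, ⟨i, hi⟩, rfl⟩
        exact ⟨i, by rw [hi]; rfl⟩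
    have imN : Finset.univ.image (fun i => (g i).elim y b) = J.image b := by
      ext c
      simp only [Finset.mem_image, Finset.mem_univ, true_and, hJ]
      constructor
      · rintro ⟨i, rfl⟩
        cases hgi' : g i with
        | none => exact absurd hgi' (hnone i)
        | some j => exact ⟨j, ⟨i, hgi'⟩, rfl⟩
      · rintro ⟨j, ⟨i, hi⟩, rfl⟩
        exact ⟨i, by rw [hi]; rfl⟩
    rw [imM, imN, h.HE_iff]

open Classical in
/-- The forth step. -/
theorem QFEq.step {n k : ℕ} {M : Type u} {N : Type v} [(hypLang k).Structure M]
    [(hypLang k).Structure N] {β : Type w} [Fintype β] {a : β → M} {b : β → N}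
    (hM : IsHyp n k M) (hN : IsHyp n k N) (hE : Ext n k N) (h : QFEq k a b) (x : M) :
    ∃ y : N, QFEq k (fun o : Option β => o.elim x a) (fun o : Option β => o.elim y b) := by
  by_cases hx : ∃ i, a i = x
  · obtain ⟨i, rfl⟩ := hx
    refine ⟨b i, ?_⟩
    have h1 := h.comp (fun o : Option β => o.getD i)
    have e1 : (fun o : Option β => o.elim (a i) a) = fun o => a (o.getD i) := by
      funext o; cases o <;> rfl
    have e2 : (fun o : Option β => o.elim (b i) b) = fun o => b (o.getD i) := by
      funext o; cases o <;> rfl
    rw [e1, e2]; exact h1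
  · push Not at hx
    obtain ⟨y, hy, hyZ⟩ := hE (Finset.univ.image b)
      {Z | ∃ J : Finset β, J.image b = Z ∧ HE k (insert x (J.image a))} (by
        intro Y hY hc hcl
        by_contra hcon
        push Not at hcon
        obtain ⟨J, -, rfl⟩ := Finset.subset_image_iff.1 hY
        have hxJ : ∀ J : Finset β, x ∉ J.image a := by
          intro J hh
          obtain ⟨i, _, hi⟩ := Finset.mem_image.1 hh
          exact hx i hi
        refine not_clique hM (s := insert x (J.image a)) ?_ ?_
        · rw [Finset.card_insert_of_notMem (hxJ J), h.card_eq, hc]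
        · intro W hW hWc
          by_cases hxW : x ∈ W
          · have hsub : W.erase x ⊆ J.image a := by
              intro c hc'
              have h1 := Finset.mem_erase.1 hc'
              exact (Finset.mem_insert.1 (hW h1.2)).resolve_left h1.1
            obtain ⟨K, hK, hKe⟩ := Finset.subset_image_iff.1 hsub
            have hK' : K ⊆ J := by exact_mod_cast hK
            obtain ⟨J', hJ', hJE⟩ := hcon (K.image b) (Finset.image_subset_image hK')
              (by rw [← h.card_eq, hKe, Finset.card_erase_of_mem hxW, hWc]; rfl)
            have := h.symm.image_eq hJ'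
            rw [this, hKe, Finset.insert_erase hxW] at hJE
            exact hJE
          · have hsub : W ⊆ J.image a := by
              intro c hc'
              refine (Finset.mem_insert.1 (hW hc')).resolve_left ?_
              rintro rfl
              exact hxW hc'
            obtain ⟨K, hK, hKe⟩ := Finset.subset_image_iff.1 hsub
            have hK' : K ⊆ J := by exact_mod_cast hK
            rw [← hKe, h.HE_iff]
            refine hcl _ (Finset.image_subset_image hK') ?_
            rw [← h.card_eq, hKe, hWc])
    refine ⟨y, h.extend hM hN hx (fun i hi =>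
      hy (hi ▸ Finset.mem_image_of_mem b (Finset.mem_univ i))) fun J hJ => ?_⟩
    rw [hyZ _ (Finset.image_subset_image (Finset.subset_univ _)) hJ]
    constructor
    · intro hh
      exact ⟨J, rfl, hh⟩
    · rintro ⟨J', hJ', hh⟩
      rwa [h.symm.image_eq hJ'] at hh

theorem term_eq_var {k : ℕ} {β : Type w} (t : (hypLang k).Term β) : ∃ i, t = Term.var i := by
  cases t with
  | var i => exact ⟨i, rfl⟩
  | func f _ => exact Empty.elim f

/-- Back and forth: in structures with the extension property, tuples with the same
quantifier free type satisfy the same formulas. -/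
theorem realize_iff_of_QFEq_fin {n k : ℕ} {M : Type u} {N : Type v} [(hypLang k).Structure M]
    [(hypLang k).Structure N] (hM : IsHyp n k M) (hN : IsHyp n k N) (hME : Ext n k M)
    (hNE : Ext n k N) {α : Type w} [Fintype α] {l : ℕ} (φ : (hypLang k).BoundedFormula α l)
    (v : α → M) (xs : Fin l → M) (v' : α → N) (xs' : Fin l → N)
    (h : QFEq k (Sum.elim v xs) (Sum.elim v' xs')) :
    φ.Realize v xs ↔ φ.Realize v' xs' := by
  induction φ with
  | falsum => exact Iff.rfl
  | equal t₁ t₂ =>
    obtain ⟨i, rfl⟩ := term_eq_var t₁
    obtain ⟨j, rfl⟩ := term_eq_var t₂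
    exact h.1 i j
  | rel R ts =>
    cases R
    choose g hg using fun i => term_eq_var (ts i)
    have := h.2 g
    simp only [BoundedFormula.Realize, hg, Term.realize_var]
    exact this
  | imp φ ψ ih1 ih2 =>
    simp only [BoundedFormula.realize_imp]
    exact imp_congr (ih1 xs xs' h) (ih2 xs xs' h)
  | all φ ih =>
    rename_i l
    simp only [BoundedFormula.realize_all]
    let g : α ⊕ Fin (l + 1) → Option (α ⊕ Fin l) := fun c =>
      Sum.elim (fun i => some (Sum.inl i))
        (fun i => Fin.lastCases (motive := fun _ => Option (α ⊕ Fin l)) none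
          (fun j => some (Sum.inr j)) i) c
    have hgM : ∀ x : M, (fun c => (g c).elim x (Sum.elim v xs)) =
        Sum.elim v (Fin.snoc xs x) := by
      intro x
      funext c
      cases c with
      | inl i => rfl
      | inr i =>
        refine Fin.lastCases ?_ (fun j => ?_) i
        · simp [g]
        · simp [g]
    have hgN : ∀ x : N, (fun c => (g c).elim x (Sum.elim v' xs')) =
        Sum.elim v' (Fin.snoc xs' x) := by
      intro x
      funext c
      cases c with
      | inl i => rfl
      | inr i =>
        refine Fin.lastCases ?_ (fun j => ?_) i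
        · simp [g]
        · simp [g]
    constructor
    · intro hall y
      obtain ⟨x, hx⟩ := h.symm.step hN hM hME y
      refine (ih _ _ ?_).1 (hall x)
      have := hx.symm.comp g
      rw [hgM, hgN] at this
      exact this
    · intro hall x
      obtain ⟨y, hy⟩ := h.step hM hN hNE x
      refine (ih _ _ ?_).2 (hall y)
      have := hy.comp g
      rw [hgM, hgN] at this
      exact this

theorem realize_iff_of_QFEq {n k : ℕ} {M : Type u} {N : Type v} [(hypLang k).Structure M]
    [(hypLang k).Structure N] (hM : IsHyp n k M) (hN : IsHyp n k N) (hME : Ext n k M)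
    (hNE : Ext n k N) {α : Type w} [DecidableEq α] (φ : (hypLang k).Formula α)
    (v : α → M) (v' : α → N)
    (h : QFEq k (fun i : φ.freeVarFinset => v i) (fun i : φ.freeVarFinset => v' i)) :
    φ.Realize v ↔ φ.Realize v' := by
  unfold Formula.Realize
  rw [← BoundedFormula.realize_restrictFreeVar' (φ := φ) (s := (φ.freeVarFinset : Set α))
      (Set.Subset.refl _),
    ← BoundedFormula.realize_restrictFreeVar' (φ := φ) (s := (φ.freeVarFinset : Set α))
      (Set.Subset.refl _)]
  have : Fintype ((φ.freeVarFinset : Set α) : Type w) := inferInstanceAs (Fintype φ.freeVarFinset)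
  apply realize_iff_of_QFEq_fin hM hN hME hNE
  let g : ((φ.freeVarFinset : Set α) : Type w) ⊕ Fin 0 → φ.freeVarFinset :=
    Sum.elim (fun i => ⟨i.1, i.2⟩) (fun i => Fin.elim0 i)
  have := h.comp g
  have e1 : (fun c => v (g c)) = Sum.elim (v ∘ (↑)) (default : Fin 0 → M) := by
    funext c
    cases c with
    | inl i => rfl
    | inr i => exact Fin.elim0 i
  have e2 : (fun c => v' (g c)) = Sum.elim (v' ∘ (↑)) (default : Fin 0 → N) := by
    funext c
    cases c with
    | inl i => rfl
    | inr i => exact Fin.elim0 i
  rw [e1, e2] at this
  exact this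

end Pool.Agent.Keisler
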