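import Mathlib.ModelTheory.Ultraproducts
import Mathlib.ModelTheory.Satisfiability
import Mathlib.SetTheory.Cardinal.Basic

/-!
# Keisler's order and the generic free hypergraph theories: definitions

* `hypLang k`: the language with one relation symbol of arity `k + 1`.
* `hypTheory n k`: the universal theory of `(k+1)`-uniform hypergraphs without a clique
  on `n + 1` points.
* `IsModelCompletion T Tstar`.
* `Saturated`, `Regular`, `GoodFor`, `KeislerLE`.
-/

universe u

open FirstOrder Language Cardinal

namespace Pool.Agent.Keisler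

/-- The only relation symbol: one symbol `edge`, of arity `k + 1`. -/
inductive HypRel (k : ℕ) : ℕ → Type
  | edge : HypRel k (k + 1)

/-- The language with one `(k + 1)`-place relation symbol and no function symbols. -/
def hypLang (k : ℕ) : Language.{0, 0} := ⟨fun _ => Empty, HypRel k⟩

/-- The relation symbol of `hypLang k`. -/
def edgeSym (k : ℕ) : (hypLang k).Relations (k + 1) := HypRel.edge

/-- The formula `R(x_{w 0}, ..., x_{w k})` in the bound variables `x_0, ..., x_{m-1}`. -/
def edgeFormula {k m : ℕ} (w : Fin (k + 1) → Fin m) :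
    (hypLang k).BoundedFormula Empty m :=
  (edgeSym k).boundedFormula fun i => Term.var (Sum.inr (w i))

/-- The formula `x_i = x_j`. -/
def eqFormula {k m : ℕ} (i j : Fin m) : (hypLang k).BoundedFormula Empty m :=
  Term.bdEqual (Term.var (Sum.inr i)) (Term.var (Sum.inr j))

/-- `R` is invariant under the permutation `σ` of its arguments. -/
def symmAx (k : ℕ) (σ : Equiv.Perm (Fin (k + 1))) : (hypLang k).Sentence :=
  ((edgeFormula (fun i => i)).imp (edgeFormula σ)).alls

/-- `R` holds only if the arguments number `i` and `j` are different. -/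
def irreflAx (k : ℕ) (i j : Fin (k + 1)) : (hypLang k).Sentence :=
  ((edgeFormula (fun i => i)).imp (eqFormula i j).not).alls

/-- There are no `n + 1` distinct elements such that every `k + 1` of them form an edge. -/
noncomputable def cliqueFreeAx (n k : ℕ) : (hypLang k).Sentence :=
  (((BoundedFormula.iInf fun p : {p : Fin (n + 1) × Fin (n + 1) // p.1 ≠ p.2} =>
      (eqFormula (k := k) p.1.1 p.1.2).not) ⊓
    (BoundedFormula.iInf fun w : Fin (k + 1) ↪ Fin (n + 1) => edgeFormula w)).not).alls

/-- The universal theory of `(k + 1)`-uniform hypergraphs (symmetric, irreflexive) in which no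
`n + 1` distinct elements have all their `(k + 1)`-subsets as edges. -/
def hypTheory (n k : ℕ) : (hypLang k).Theory :=
  {φ | (∃ σ, φ = symmAx k σ) ∨ (∃ i j, i ≠ j ∧ φ = irreflAx k i j) ∨ φ = cliqueFreeAx n k}

/-- `Tstar` is a model completion of `T`: every model of `Tstar` is a model of `T`, every model
of `T` embeds into a model of `Tstar`, and for every model `A` of `T` the theory
`Tstar ∪ Diag(A)` is complete, that is, any two models of `Tstar` into which `A` is embedded
satisfy the same formulas with parameters from `A`.  (Structures are nonempty.) -/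
def IsModelCompletion {L : Language.{0, 0}} (T Tstar : L.Theory) : Prop :=
  (∀ (M : Type u) [L.Structure M] [Nonempty M], M ⊨ Tstar → M ⊨ T) ∧
  (∀ (A : Type u) [L.Structure A] [Nonempty A], A ⊨ T →
    ∃ (M : Type u) (_ : L.Structure M), M ⊨ Tstar ∧ Nonempty (A ↪[L] M)) ∧
  (∀ (A M N : Type u) [L.Structure A] [L.Structure M] [L.Structure N] [Nonempty A],
    A ⊨ T → M ⊨ Tstar → N ⊨ Tstar → ∀ (f : A ↪[L] M) (g : A ↪[L] N) (φ : L.Formula A),
      φ.Realize f ↔ φ.Realize g)

/-- `M` is `κ`-saturated: every set `p` of formulas in one free variable with parameters from a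
set `A ⊆ M` of size less than `κ` which is finitely satisfiable in `M` is realized in `M`.
The free variable is `Sum.inr ()`, the parameter `a : A` is `Sum.inl a`. -/
def Saturated (L : Language.{0, 0}) (M : Type u) [L.Structure M] (κ : Cardinal.{u}) : Prop :=
  ∀ A : Set M, #A < κ → ∀ p : Set (L.Formula (A ⊕ Unit)),
    (∀ s : Finset (L.Formula (A ⊕ Unit)), (s : Set (L.Formula (A ⊕ Unit))) ⊆ p →
      ∃ x : M, ∀ φ ∈ s, φ.Realize (Sum.elim (fun a : A => (a : M)) (fun _ => x))) →
    ∃ x : M, ∀ φ ∈ p, φ.Realize (Sum.elim (fun a : A => (a : M)) (fun _ => x))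

/-- The ultrafilter `D` on `I` is regular: there are `|I|` many sets in `D` such that every
`t ∈ I` belongs to only finitely many of them. -/
def Regular {I : Type u} (D : Ultrafilter I) : Prop :=
  ∃ E : Set (Set I), (∀ X ∈ E, X ∈ D) ∧ #E = #I ∧ ∀ t : I, {X ∈ E | t ∈ X}.Finite

/-- `D` (an ultrafilter on `I`) is good for the theory `T`: the ultrapower `M^I / D` is
`|I|⁺`-saturated for some model `M` of `T`. -/
def GoodFor {L : Language.{0, 0}} {I : Type u} (D : Ultrafilter I) (T : L.Theory) : Prop :=
  ∃ (M : Type u) (_ : L.Structure M), Nonempty M ∧ M ⊨ T ∧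
    Saturated L ((D : Filter I).Product fun _ => M) (Order.succ #I)

/-- Keisler's order: `T₁ ⊴ T₂` iff every regular ultrafilter (on any infinite set) which is good
for `T₂` is good for `T₁`. -/
def KeislerLE {L₁ L₂ : Language.{0, 0}} (T₁ : L₁.Theory) (T₂ : L₂.Theory) : Prop :=
  ∀ (I : Type u) [Infinite I] (D : Ultrafilter I), Regular D →
    GoodFor D T₂ → GoodFor D T₁

/-- The statement of the question: for any two distinct pairs `(n, k) ≠ (n', k')` with
`n > k ≥ 2` and `n' > k' ≥ 2`, the model completions `T_{n,k}` and `T_{n',k'}` of the theories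
of `(n+1)`-clique-free `(k+1)`-uniform and `(n'+1)`-clique-free `(k'+1)`-uniform hypergraphs are
incomparable in Keisler's order. -/
def PairwiseIncomparable : Prop :=
  ∀ n k n' k' : ℕ, 2 ≤ k → k < n → 2 ≤ k' → k' < n' → (n, k) ≠ (n', k') →
    ∀ (T : (hypLang k).Theory) (T' : (hypLang k').Theory),
      IsModelCompletion.{u} (hypTheory n k) T → IsModelCompletion.{u} (hypTheory n' k') T' →
        ¬ KeislerLE.{u} T T' ∧ ¬ KeislerLE.{u} T' T

end Pool.Agent.Keisler
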