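import Pool.Agent.Keisler.BackForth

/-!
# First order axioms for the extension property
-/

universe u v w

open FirstOrder Language Structure

namespace Pool.Agent.Keisler

open Classical in
/-- Enumerating a finite set contained in the range of an injective map. -/
theorem exists_enum {γ : Type w} {M : Type u} (y : γ → M) {j : ℕ}
    (W : Finset M) (hW : ∀ a ∈ W, ∃ c, y c = a) (hc : W.card = j) :
    ∃ g : Fin j ↪ γ, Finset.univ.image (fun i => y (g i)) = W := by
  let e : Fin j ≃ W := (Finset.equivFinOfCardEq hc).symm
  choose g hg using fun i : Fin j => hW (e i) (e i).2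
  have hgi : Function.Injective g := by
    intro a b hab
    apply e.injective
    apply Subtype.val_injective
    rw [← hg a, ← hg b, hab]
  refine ⟨⟨g, hgi⟩, ?_⟩
  ext a
  simp only [Finset.mem_image, Finset.mem_univ, true_and, Function.Embedding.coeFn_mk, hg]
  constructor
  · rintro ⟨i, rfl⟩; exact (e i).2
  · intro ha; exact ⟨e.symm ⟨a, ha⟩, by simp⟩

theorem comp_inj {γ δ : Type*} {M : Type u} {y : γ → M} (hy : Function.Injective y)
    (z : δ ↪ γ) : Function.Injective fun i => y (z i) :=
  hy.comp z.injective

theorem card_image_comp {γ : Type*} {j : ℕ} {M : Type u} [DecidableEq M] {y : γ → M}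
    (hy : Function.Injective y) (z : Fin j ↪ γ) :
    (Finset.univ.image fun i => y (z i)).card = j := by
  rw [Finset.card_image_of_injective _ (comp_inj hy z)]
  simp

/-- Premise of the extension axiom. -/
noncomputable def extPre (n k m : ℕ) (F : Finset (Finset (Fin m))) :
    (hypLang k).BoundedFormula Empty m :=
  (BoundedFormula.iInf fun p : {p : Fin m × Fin m // p.1 ≠ p.2} =>
      (eqFormula (k := k) p.1.1 p.1.2).not) ⊓
    (BoundedFormula.iInf fun Y : {Y : Fin n ↪ Fin m //
        ∀ z : Fin k ↪ Fin n, Finset.univ.image (fun i => Y (z i)) ∈ F} =>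
      BoundedFormula.iSup fun g : Fin (k + 1) ↪ Fin n =>
        (edgeFormula fun i => Y.1 (g i)).not)

open Classical in
/-- Body of the conclusion of the extension axiom. -/
noncomputable def extPost (k m : ℕ) (F : Finset (Finset (Fin m))) :
    (hypLang k).BoundedFormula Empty (m + 1) :=
  (BoundedFormula.iInf fun i : Fin m =>
      (eqFormula (k := k) i.castSucc (Fin.last m)).not) ⊓
    (BoundedFormula.iInf fun z : Fin k ↪ Fin m =>
      if Finset.univ.image (fun i => z i) ∈ F then
        edgeFormula (Fin.cons (Fin.last m) fun i => (z i).castSucc)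
      else (edgeFormula (Fin.cons (Fin.last m) fun i => (z i).castSucc)).not)

/-- The extension axiom. -/
noncomputable def extAx (n k m : ℕ) (F : Finset (Finset (Fin m))) : (hypLang k).Sentence :=
  ((extPre n k m F).imp (extPost k m F).ex).alls

/-- The theory `T_{n,k}`. -/
def genTheory (n k : ℕ) : (hypLang k).Theory :=
  hypTheory n k ∪ {φ | ∃ m F, φ = extAx n k m F}

section

variable {n k m : ℕ} {M : Type u} [(hypLang k).Structure M]

theorem realize_extPre {F : Finset (Finset (Fin m))} (v : Empty → M) (y : Fin m → M) :
    (extPre n k m F).Realize v y ↔ Function.Injective y ∧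
      ∀ Y : Fin n ↪ Fin m, (∀ z : Fin k ↪ Fin n, Finset.univ.image (fun i => Y (z i)) ∈ F) →
        ∃ g : Fin (k + 1) ↪ Fin n, ¬ Rel k (fun i => y (Y (g i))) := by
  simp only [extPre, BoundedFormula.realize_inf, BoundedFormula.realize_iInf,
    BoundedFormula.realize_iSup, BoundedFormula.realize_not, realize_edgeFormula,
    realize_eqFormula]
  refine and_congr ?_ ?_
  · constructor
    · intro h a b hab
      by_contra hne
      exact h ⟨(a, b), hne⟩ hab
    · intro h p hp
      exact p.2 (h hp)
  · exact ⟨fun h Y hY => h ⟨Y, hY⟩, fun h Y => h Y.1 Y.2⟩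

theorem cons_castSucc_snoc {α : Type*} (y : Fin m → α) (x : α) (z : Fin k → Fin m) :
    (fun i => (Fin.snoc (α := fun _ => α) y x : Fin (m + 1) → α)
      ((Fin.cons (α := fun _ => Fin (m + 1)) (Fin.last m) fun i => (z i).castSucc) i)) =
    (Fin.cons (α := fun _ => α) x fun i => y (z i) : Fin (k + 1) → α) := by
  funext i
  refine Fin.cases ?_ (fun j => ?_) i
  · simp
  · simp

theorem realize_extPost {F : Finset (Finset (Fin m))} (v : Empty → M) (y : Fin m → M) (x : M) :
    (extPost k m F).Realize v (Fin.snoc y x) ↔ (∀ i, y i ≠ x) ∧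
      ∀ z : Fin k ↪ Fin m, (Rel k (Fin.cons (α := fun _ => M) x fun i => y (z i)) ↔
        Finset.univ.image (fun i => z i) ∈ F) := by
  classical
  simp only [extPost, BoundedFormula.realize_inf, BoundedFormula.realize_iInf,
    BoundedFormula.realize_not, realize_eqFormula, Fin.snoc_castSucc, Fin.snoc_last]
  refine and_congr Iff.rfl (forall_congr' fun z => ?_)
  split_ifs with h
  · rw [realize_edgeFormula, cons_castSucc_snoc]
    simp [h]
  · rw [BoundedFormula.realize_not, realize_edgeFormula, cons_castSucc_snoc]
    simp [h]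

theorem realize_extAx {F : Finset (Finset (Fin m))} :
    M ⊨ extAx n k m F ↔ ∀ y : Fin m → M, Function.Injective y →
      (∀ Y : Fin n ↪ Fin m, (∀ z : Fin k ↪ Fin n, Finset.univ.image (fun i => Y (z i)) ∈ F) →
        ∃ g : Fin (k + 1) ↪ Fin n, ¬ Rel k (fun i => y (Y (g i)))) →
      ∃ x, (∀ i, y i ≠ x) ∧
        ∀ z : Fin k ↪ Fin m, (Rel k (Fin.cons (α := fun _ => M) x fun i => y (z i)) ↔
          Finset.univ.image (fun i => z i) ∈ F) := by
  rw [Sentence.Realize, extAx, BoundedFormula.realize_alls]
  simp only [BoundedFormula.realize_imp, realize_extPre, BoundedFormula.realize_ex,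
    realize_extPost, and_imp]

open Classical in
theorem rel_cons_iff (h : IsHyp n k M) (x : M) (y : Fin k → M) (hy : Function.Injective y)
    (hx : ∀ i, y i ≠ x) :
    Rel k (Fin.cons (α := fun _ => M) x y) ↔ HE k (insert x (Finset.univ.image y)) := by
  rw [rel_iff h]
  have h1 : Function.Injective (Fin.cons (α := fun _ => M) x y : Fin (k + 1) → M) := by
    rw [Fin.cons_injective_iff]
    refine ⟨?_, hy⟩
    rintro ⟨i, hi⟩
    exact hx i hi
  have h2 : Finset.univ.image (Fin.cons (α := fun _ => M) x y : Fin (k + 1) → M) =
      insert x (Finset.univ.image y) := by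
    ext a
    simp only [Finset.mem_image, Finset.mem_univ, true_and, Finset.mem_insert]
    rw [Fin.exists_fin_succ]
    simp [eq_comm]
  rw [h2]
  simp [h1]

open Classical in
theorem clique_of_rel (h : IsHyp n k M) {j : ℕ} (y : Fin j → M) (_hy : Function.Injective y)
    (hr : ∀ g : Fin (k + 1) ↪ Fin j, Rel k (fun i => y (g i))) :
    Clique k (Finset.univ.image y) := by
  intro W hW hc
  obtain ⟨g, hg⟩ := exists_enum y W (fun a ha => by simpa using hW ha) hc
  have := (rel_iff h _).1 (hr g)
  rw [hg] at this
  exact this.2

open Classical in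
theorem rel_of_clique (h : IsHyp n k M) {j : ℕ} (y : Fin j → M) (hy : Function.Injective y)
    (hr : Clique k (Finset.univ.image y)) (g : Fin (k + 1) ↪ Fin j) :
    Rel k (fun i => y (g i)) := by
  rw [rel_iff h]
  have hi : Function.Injective fun i => y (g i) := hy.comp g.injective
  refine ⟨hi, hr _ ?_ ?_⟩
  · intro a ha
    simp only [Finset.mem_image, Finset.mem_univ, true_and] at ha ⊢
    obtain ⟨i, rfl⟩ := ha
    exact ⟨g i, rfl⟩
  · rw [Finset.card_image_of_injective _ hi]; simp

theorem ext_iff (h : IsHyp n k M) : Ext n k M ↔ ∀ m F, M ⊨ extAx n k m F := by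
  classical
  constructor
  · intro hE m F
    rw [realize_extAx]
    intro y hy hcond
    obtain ⟨x, hx, hxZ⟩ := hE (Finset.univ.image y)
      {Z | ∃ J ∈ F, J.image y = Z} (by
        intro Y hY hc hcl
        by_contra hcon
        push Not at hcon
        obtain ⟨g, hg⟩ := exists_enum y Y (fun a ha => by simpa using hY ha) hc
        have hyg : Function.Injective fun i => y (g i) := hy.comp g.injective
        obtain ⟨w, hw⟩ := hcond g (by
          intro z
          obtain ⟨J, hJ, hJe⟩ := hcon ((Finset.univ.image fun i => g (z i)).image y) (by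
            rw [← hg]
            intro a ha
            simp only [Finset.mem_image, Finset.mem_univ, true_and, exists_exists_eq_and] at ha ⊢
            obtain ⟨i, rfl⟩ := ha
            exact ⟨z i, rfl⟩) (by
            rw [Finset.card_image_of_injective _ hy]
            exact card_image_comp g.injective z)
          have := Finset.image_injective hy hJe
          rwa [this] at hJ)
        rw [← hg] at hcl
        exact hw (rel_of_clique h _ hyg hcl w))
    have hx' : ∀ i, y i ≠ x := by
      intro i hi
      exact hx (hi ▸ Finset.mem_image_of_mem y (Finset.mem_univ i))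
    refine ⟨x, hx', fun z => ?_⟩
    rw [rel_cons_iff h _ _ (comp_inj hy z) (fun i => hx' (z i))]
    rw [hxZ _ (by
      intro a ha
      simp only [Finset.mem_image, Finset.mem_univ, true_and] at ha ⊢
      obtain ⟨i, rfl⟩ := ha
      exact ⟨z i, rfl⟩) (by
      exact card_image_comp hy z)]
    constructor
    · rintro ⟨J, hJ, hJe⟩
      have h2 : Finset.univ.image (fun i => y (z i)) = (Finset.univ.image fun i => z i).image y := by
        rw [Finset.image_image]; rfl
      rw [h2] at hJe
      rwa [Finset.image_injective hy hJe] at hJ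
    · intro hF
      exact ⟨_, hF, by rw [Finset.image_image]; rfl⟩
  · intro hax B F hcond
    let e : Fin B.card ≃ B := B.equivFin.symm
    let y : Fin B.card → M := fun i => e i
    have hy : Function.Injective y := Subtype.val_injective.comp e.injective
    have hyB : ∀ a ∈ B, ∃ i, y i = a := fun a ha => ⟨e.symm ⟨a, ha⟩, by simp [y]⟩
    have hBy : ∀ i, y i ∈ B := fun i => (e i).2
    obtain ⟨x, hx, hxz⟩ := realize_extAx.1
      (hax B.card (Finset.univ.filter fun J => J.image y ∈ F)) y hy (by
        intro Y hY
        by_contra hcon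
        push Not at hcon
        obtain ⟨Z, hZ, hZc, hZn⟩ := hcond (Finset.univ.image fun i => y (Y i)) (by
          intro a ha
          simp only [Finset.mem_image, Finset.mem_univ, true_and] at ha
          obtain ⟨i, rfl⟩ := ha
          exact hBy _) (by
          exact card_image_comp hy Y) (clique_of_rel h _ (comp_inj hy Y) hcon)
        obtain ⟨z, hz⟩ := exists_enum (fun i => y (Y i)) Z
          (fun a ha => by simpa using hZ ha) hZc
        have := hY z
        rw [Finset.mem_filter] at this
        apply hZn
        have h2 := this.2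
        rw [Finset.image_image] at h2
        rw [← hz]
        exact h2)
    refine ⟨x, ?_, ?_⟩
    · intro hxB
      obtain ⟨i, hi⟩ := hyB x hxB
      exact hx i hi
    · intro Z hZ hZc
      obtain ⟨z, hz⟩ := exists_enum y Z (fun a ha => hyB a (hZ ha)) hZc
      have h1 := hxz z
      rw [rel_cons_iff h _ _ (comp_inj hy z) (fun i => hx (z i)), hz] at h1
      rw [h1]
      rw [Finset.mem_filter, Finset.image_image]
      rw [← hz]
      simp [Function.comp_def]

theorem model_genTheory_iff : M ⊨ genTheory n k ↔ IsHyp n k M ∧ Ext n k M := by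
  unfold genTheory
  rw [Theory.model_union_iff, model_hypTheory_iff]
  refine and_congr_right fun h => ?_
  rw [ext_iff h, Theory.model_iff]
  constructor
  · intro h2 m F
    exact h2 _ ⟨m, F, rfl⟩
  · rintro h2 _ ⟨m, F, rfl⟩
    exact h2 m F

end

end Pool.Agent.Keisler
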