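import Pool.Agent.Keisler.Semantics
import Mathlib.Logic.Equiv.List
import Mathlib.Logic.Equiv.Finset
import Mathlib.Data.Nat.Pairing

/-!
# A countable structure with the extension property
-/

universe u v

open FirstOrder Language Structure

namespace Pool.Agent.Keisler

/-- The task to be performed at stage `v`. -/
def task (v : ℕ) : Finset ℕ × Finset (Finset ℕ) :=
  (Encodable.decode (α := Finset ℕ × Finset (Finset ℕ)) (Nat.unpair v).2).getD (∅, ∅)

/-- The task is admissible. -/
def TaskOK (n k : ℕ) (E : Set (Finset ℕ)) (v : ℕ) : Prop :=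
  (∀ b ∈ (task v).1, b < v) ∧
    ∀ Y ⊆ (task v).1, Y.card = n → (∀ W ⊆ Y, W.card = k + 1 → W ∈ E) →
      ∃ Z ⊆ Y, Z.card = k ∧ Z ∉ (task v).2

/-- Edges among the points below `v`. -/
def lev (n k : ℕ) : ℕ → Set (Finset ℕ)
  | 0 => ∅
  | v + 1 => lev n k v ∪ {s | TaskOK n k (lev n k v) v ∧
      ∃ Z ∈ (task v).2, Z ⊆ (task v).1 ∧ Z.card = k ∧ s = insert v Z}

theorem lev_mono {n k : ℕ} {v w : ℕ} (h : v ≤ w) : lev n k v ⊆ lev n k w := by
  induction h with
  | refl => exact fun _ h => h
  | step _ ih => exact fun s hs => Or.inl (ih hs)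

theorem lev_lt {n k : ℕ} {v : ℕ} {s : Finset ℕ} (h : s ∈ lev n k v) : ∀ a ∈ s, a < v := by
  induction v with
  | zero => exact absurd h (by simp [lev])
  | succ v ih =>
    rcases h with h | ⟨hok, Z, _, hZ, _, rfl⟩
    · intro a ha
      exact (ih h a ha).trans (Nat.lt_succ_self v)
    · intro a ha
      rcases Finset.mem_insert.1 ha with rfl | ha
      · exact Nat.lt_succ_self _
      · exact (hok.1 a (hZ ha)).trans (Nat.lt_succ_self v)

theorem lev_card {n k : ℕ} {v : ℕ} {s : Finset ℕ} (h : s ∈ lev n k v) : s.card = k + 1 := by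
  induction v with
  | zero => exact absurd h (by simp [lev])
  | succ v ih =>
    rcases h with h | ⟨hok, Z, _, hZ, hc, rfl⟩
    · exact ih h
    · rw [Finset.card_insert_of_notMem, hc]
      intro hv
      exact absurd (hok.1 v (hZ hv)) (lt_irrefl v)

theorem lev_of {n k : ℕ} {v w : ℕ} {s : Finset ℕ} (h : s ∈ lev n k w)
    (hs : ∀ a ∈ s, a < v) : s ∈ lev n k v := by
  induction w with
  | zero => exact absurd h (by simp [lev])
  | succ w ih =>
    rcases h with h | ⟨hok, Z, h1, hZ, hc, rfl⟩
    · exact ih h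
    · have hw : w < v := hs w (Finset.mem_insert_self _ _)
      exact lev_mono hw (Or.inr ⟨hok, Z, h1, hZ, hc, rfl⟩)

theorem lev_free {n k : ℕ} (hk : 1 ≤ k) (hkn : k ≤ n) (v : ℕ) (Y : Finset ℕ)
    (hY : Y.card = n + 1) (h : ∀ W ⊆ Y, W.card = k + 1 → W ∈ lev n k v) : False := by
  induction v with
  | zero =>
    obtain ⟨W, hW, hc⟩ := Finset.exists_subset_card_eq (s := Y) (n := k + 1) (by omega)
    exact absurd (h W hW hc) (by simp [lev])
  | succ v ih =>
    by_cases hv : v ∈ Y
    · have hY' : (Y.erase v).card = n := by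
        rw [Finset.card_erase_of_mem hv, hY]; rfl
      have h1 : ∀ Z ⊆ Y.erase v, Z.card = k →
          TaskOK n k (lev n k v) v ∧ Z ∈ (task v).2 ∧ Z ⊆ (task v).1 := by
        intro Z hZ hc
        have hvZ : v ∉ Z := fun hh => (Finset.mem_erase.1 (hZ hh)).1 rfl
        have hsub : insert v Z ⊆ Y := by
          intro a ha
          rcases Finset.mem_insert.1 ha with rfl | ha
          · exact hv
          · exact Finset.mem_of_mem_erase (hZ ha)
        have hin := h (insert v Z) hsub (by rw [Finset.card_insert_of_notMem hvZ, hc])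
        rcases hin with hin | ⟨hok, Z', h2, hZ', hc', he⟩
        · exact absurd (lev_lt hin v (Finset.mem_insert_self _ _)) (lt_irrefl v)
        · have hvZ' : v ∉ Z' := fun hh => absurd (hok.1 v (hZ' hh)) (lt_irrefl v)
          have : Z = Z' := by
            have := congrArg (fun s => Finset.erase s v) he
            simpa [Finset.erase_insert hvZ, Finset.erase_insert hvZ'] using this
          subst this
          exact ⟨hok, h2, hZ'⟩
      obtain ⟨Z0, hZ0, hc0⟩ := Finset.exists_subset_card_eq (s := Y.erase v) (n := k) (by omega)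
      have hok := (h1 Z0 hZ0 hc0).1
      have hsubB : Y.erase v ⊆ (task v).1 := by
        intro a ha
        obtain ⟨Z, h1a, h2a, h3a⟩ := Finset.exists_subsuperset_card_eq
          (s := {a}) (t := Y.erase v) (n := k) (by simpa using ha) (by simpa using hk)
          (by omega)
        exact (h1 Z h2a h3a).2.2 (h1a (Finset.mem_singleton_self a))
      obtain ⟨Z, hZ, hc, hn⟩ := hok.2 (Y.erase v) hsubB hY' (by
        intro W hW hc
        refine lev_of (h W (hW.trans (Finset.erase_subset _ _)) hc) ?_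
        intro a ha
        exact hok.1 a (hsubB (hW ha)))
      exact hn (h1 Z hZ hc).2.1
    · apply ih
      intro W hW hc
      rcases h W hW hc with h' | ⟨_, Z, _, _, _, rfl⟩
      · exact h'
      · exact absurd (hW (Finset.mem_insert_self _ _)) hv

/-- The edges of the countable generic structure. -/
def genE (n k : ℕ) (s : Finset ℕ) : Prop := ∃ v, s ∈ lev n k v

theorem genE_free {n k : ℕ} (hk : 1 ≤ k) (hkn : k ≤ n) (Y : Finset ℕ)
    (hY : Y.card = n + 1) : ∃ W ⊆ Y, W.card = k + 1 ∧ ¬ genE n k W := by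
  by_contra hcon
  push Not at hcon
  refine lev_free hk hkn (Y.sup id + 1) Y hY fun W hW hc => ?_
  obtain ⟨v, hv⟩ := hcon W hW hc
  refine lev_of hv fun a ha => ?_
  exact Nat.lt_succ_of_le (Finset.le_sup (f := id) (hW ha))

theorem genE_ext {n k : ℕ} (B : Finset ℕ) (F : Set (Finset ℕ))
    (h : ∀ Y ⊆ B, Y.card = n → (∀ W ⊆ Y, W.card = k + 1 → genE n k W) →
      ∃ Z ⊆ Y, Z.card = k ∧ Z ∉ F) :
    ∃ x, x ∉ B ∧ ∀ Z ⊆ B, Z.card = k → (genE n k (insert x Z) ↔ Z ∈ F) := by
  classical
  let F' : Finset (Finset ℕ) := (B.powersetCard k).filter (· ∈ F)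
  have hF' : ∀ Z, Z ∈ F' ↔ (Z ⊆ B ∧ Z.card = k) ∧ Z ∈ F := by
    intro Z; simp [F', Finset.mem_powersetCard]
  let v := Nat.pair (B.sup id + 1) (Encodable.encode (B, F'))
  have htask : task v = (B, F') := by
    simp [task, v]
  have hv : ∀ b ∈ B, b < v := by
    intro b hb
    have h1 : b ≤ B.sup id := Finset.le_sup (f := id) hb
    have h2 : B.sup id + 1 ≤ v := Nat.left_le_pair _ _
    omega
  have hok : TaskOK n k (lev n k v) v := by
    refine ⟨?_, ?_⟩
    · rw [htask]; exact hv
    · rw [htask]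
      intro Y hY hc hW
      obtain ⟨Z, hZ, hZc, hZn⟩ := h Y hY hc fun W hW' hWc => ⟨v, hW W hW' hWc⟩
      exact ⟨Z, hZ, hZc, fun hh => hZn ((hF' Z).1 hh).2⟩
  refine ⟨v, fun hh => absurd (hv v hh) (lt_irrefl v), fun Z hZ hc => ?_⟩
  have hvZ : v ∉ Z := fun hh => absurd (hv v (hZ hh)) (lt_irrefl v)
  constructor
  · rintro ⟨w, hw⟩
    have : insert v Z ∈ lev n k (v + 1) := by
      refine lev_of hw fun a ha => ?_
      rcases Finset.mem_insert.1 ha with rfl | ha
      · exact Nat.lt_succ_self _
      · exact (hv a (hZ ha)).trans (Nat.lt_succ_self v)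
    rcases this with h' | ⟨_, Z', h2, hZ', hc', he⟩
    · exact absurd (lev_lt h' v (Finset.mem_insert_self _ _)) (lt_irrefl v)
    · rw [htask] at h2 hZ'
      have hvZ' : v ∉ Z' := fun hh => absurd (hv v (hZ' hh)) (lt_irrefl v)
      have : Z = Z' := by
        have := congrArg (fun s => Finset.erase s v) he
        simpa [Finset.erase_insert hvZ, Finset.erase_insert hvZ'] using this
      subst this
      exact ((hF' Z).1 h2).2
  · intro hZF
    refine ⟨v + 1, Or.inr ⟨hok, Z, ?_, ?_, hc, rfl⟩⟩
    · rw [htask]; exact (hF' Z).2 ⟨⟨hZ, hc⟩, hZF⟩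
    · rw [htask]; exact hZ

/-- The generic structure on `ULift ℕ`. -/
def genPred (n k : ℕ) (s : Finset (ULift.{u} ℕ)) : Prop :=
  genE n k (s.map Equiv.ulift.toEmbedding)

/-- The generic structure on `ULift ℕ`. -/
@[reducible] def genStruct (n k : ℕ) : (hypLang k).Structure (ULift.{u} ℕ) :=
  structOf k (genPred.{u} n k)

theorem genStruct_isHyp {n k : ℕ} (hk : 1 ≤ k) (hkn : k ≤ n) :
    @IsHyp n k (ULift.{u} ℕ) (genStruct n k) := by
  apply isHyp_structOf
  intro Y hY
  obtain ⟨W, hW, hc, hn⟩ := genE_free hk hkn (Y.map Equiv.ulift.toEmbedding) (by simpa using hY)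
  refine ⟨W.map Equiv.ulift.symm.toEmbedding, ?_, by simpa using hc, ?_⟩
  · intro a ha
    simp only [Finset.mem_map, Equiv.coe_toEmbedding] at ha
    obtain ⟨b, hb, rfl⟩ := ha
    have := hW hb
    simp only [Finset.mem_map, Equiv.coe_toEmbedding] at this
    obtain ⟨c, hc, rfl⟩ := this
    simpa using hc
  · unfold genPred
    rw [Finset.map_map]
    have : (Equiv.ulift.symm.toEmbedding.trans Equiv.ulift.toEmbedding : ℕ ↪ ℕ) =
        Function.Embedding.refl ℕ := by
      ext x; simp
    rw [this, Finset.map_refl]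
    exact hn

theorem genStruct_ext {n k : ℕ} :
    @Ext n k (ULift.{u} ℕ) (genStruct n k) := by
  classical
  let _ : (hypLang k).Structure (ULift.{u} ℕ) := genStruct n k
  intro B F h
  have hmm : ∀ s : Finset ℕ, (s.map Equiv.ulift.{u}.symm.toEmbedding).map
      Equiv.ulift.toEmbedding = s := by
    intro s
    ext x; simp
  have hmm' : ∀ s : Finset (ULift.{u} ℕ), (s.map Equiv.ulift.toEmbedding).map
      Equiv.ulift.symm.toEmbedding = s := by
    intro s
    ext x; simp
  obtain ⟨x, hx, hxZ⟩ := genE_ext (n := n) (k := k) (B.map Equiv.ulift.toEmbedding)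
    {s | s.map Equiv.ulift.{u}.symm.toEmbedding ∈ F} (by
      intro Y hY hc hW
      obtain ⟨Z, hZ, hZc, hZn⟩ := h (Y.map Equiv.ulift.symm.toEmbedding) (by
        have := Finset.map_subset_map (f := Equiv.ulift.{u}.symm.toEmbedding).2 hY
        rwa [hmm'] at this) (by simpa using hc) (by
          intro W hW' hWc
          rw [HE_structOf]
          refine ⟨hWc, ?_⟩
          unfold genPred
          apply hW
          · have := Finset.map_subset_map (f := Equiv.ulift.{u}.toEmbedding).2 hW'
            rwa [hmm] at this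
          · simpa using hWc)
      refine ⟨Z.map Equiv.ulift.toEmbedding, ?_, by simpa using hZc, ?_⟩
      · have := Finset.map_subset_map (f := Equiv.ulift.{u}.toEmbedding).2 hZ
        rwa [hmm] at this
      · simpa [hmm'] using hZn)
  refine ⟨ULift.up x, ?_, ?_⟩
  · intro hh
    apply hx
    simp only [Finset.mem_map, Equiv.coe_toEmbedding]
    exact ⟨_, hh, rfl⟩
  · intro Z hZ hc
    have hxB : ULift.up x ∉ B := by
      intro hh
      apply hx
      simp only [Finset.mem_map, Equiv.coe_toEmbedding]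
      exact ⟨_, hh, rfl⟩
    have h1 := hxZ (Z.map Equiv.ulift.toEmbedding) (Finset.map_subset_map.2 hZ)
      (by simpa using hc)
    rw [HE_structOf]
    have hins : (@Insert.insert _ _ (@Finset.instInsert _
        (fun a b => Classical.propDecidable (a = b))) (ULift.up.{u} x) Z) =
        insert (ULift.up.{u} x) Z := by
      apply Finset.ext
      intro a
      exact (@Finset.mem_insert _ (fun a b => Classical.propDecidable (a = b)) _ _ _).trans
        Finset.mem_insert.symm
    rw [hins]
    rw [Finset.card_insert_of_notMem (fun hh => hxB (hZ hh)), hc]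
    have h2 : genPred n k (insert (ULift.up.{u} x) Z) ↔
        genE n k (insert x (Z.map Equiv.ulift.toEmbedding)) := by
      unfold genPred
      rw [Finset.map_insert]
      rfl
    rw [h2, h1]
    simp [hmm']

end Pool.Agent.Keisler
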