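import Pool.Agent.Keisler.Transfer3

/-!
# `T_{n,k}` is below `T_{n',k}` in Keisler's order for `n ≤ n'`
-/

universe u

open FirstOrder Language Structure Filter Cardinal

namespace Pool.Agent.Keisler

theorem goodFor_iff {n k : ℕ} (hk : 1 ≤ k) (hkn : k ≤ n) {T : (hypLang k).Theory}
    (hT : IsModelCompletion.{u} (hypTheory n k) T) {I : Type u} (D : Ultrafilter I) :
    GoodFor D T ↔ GoodFor D (genTheory n k) := by
  constructor
  · rintro ⟨M, _, hM0, hM, hs⟩
    exact ⟨M, _, hM0, model_gen_of_model hk hkn hT M hM, hs⟩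
  · rintro ⟨M, _, hM0, hM, hs⟩
    exact ⟨M, _, hM0, model_of_model_gen hk hkn hT M hM, hs⟩

theorem keislerLE_succ {n k : ℕ} (hk : 1 ≤ k) (hkn : k ≤ n) :
    KeislerLE.{u} (genTheory n k) (genTheory (n + 1) k) := by
  rintro I _ D hreg ⟨M, _, hM0, hM, hs⟩
  let _ : (hypLang k).Structure (ULift.{u} ℕ) := genStruct n k
  have hN : ULift.{u} ℕ ⊨ genTheory n k := genStruct_model hk hkn
  refine ⟨ULift.{u} ℕ, genStruct n k, inferInstance, hN, ?_⟩
  obtain ⟨h1, h2⟩ := model_genTheory_iff.1 (um_model (D := D) hN)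
  exact saturated_of_qfSat h1 h2 (qfSat_transfer hk hkn hreg hM hs hN)

theorem keislerLE_add {n k : ℕ} (hk : 1 ≤ k) (hkn : k ≤ n) (j : ℕ) :
    KeislerLE.{u} (genTheory n k) (genTheory (n + j) k) := by
  induction j with
  | zero => exact fun I _ D _ h => h
  | succ j ih =>
    intro I _ D hreg h
    exact ih I D hreg (keislerLE_succ hk (by omega : k ≤ n + j) I D hreg h)

theorem keislerLE_of_le {n n' k : ℕ} (hk : 1 ≤ k) (hkn : k ≤ n) (hnn : n ≤ n')
    {T T' : (hypLang k).Theory} (hT : IsModelCompletion.{u} (hypTheory n k) T)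
    (hT' : IsModelCompletion.{u} (hypTheory n' k) T') : KeislerLE.{u} T T' := by
  obtain ⟨j, rfl⟩ := Nat.exists_eq_add_of_le hnn
  intro I _ D hreg h
  rw [goodFor_iff hk hkn hT]
  rw [goodFor_iff hk (by omega) hT'] at h
  exact keislerLE_add hk hkn j I D hreg h

end Pool.Agent.Keisler
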