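import Pool.Agent.Keisler.Ultra
import Pool.Agent.Keisler.Generic

/-!
# The model completion of the theory of clique free hypergraphs
-/

universe u v w

open FirstOrder Language Structure Filter

namespace Pool.Agent.Keisler

theorem genStruct_model {n k : ℕ} (hk : 1 ≤ k) (hkn : k ≤ n) :
    @Theory.Model _ (ULift.{u} ℕ) (genStruct n k) (genTheory n k) := by
  let _ : (hypLang k).Structure (ULift.{u} ℕ) := genStruct n k
  exact model_genTheory_iff.2 ⟨genStruct_isHyp hk hkn, genStruct_ext⟩

theorem exists_embedding' {n k : ℕ} (hk : 1 ≤ k) (hkn : k ≤ n)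
    (A : Type u) [(hypLang k).Structure A] [Nonempty A] (hA : IsHyp n k A) :
    ∃ (M : Type u) (_ : (hypLang k).Structure M), M ⊨ genTheory n k ∧
      Nonempty (A ↪[hypLang k] M) := by
  let _ : (hypLang k).Structure (ULift.{u} ℕ) := genStruct n k
  exact exists_embedding hk hkn (ULift.{u} ℕ) (genStruct_model hk hkn) A hA

/-- `genTheory n k` is a model completion of `hypTheory n k`. -/
theorem isModelCompletion_genTheory {n k : ℕ} (hk : 1 ≤ k) (hkn : k ≤ n) :
    IsModelCompletion.{u} (hypTheory n k) (genTheory n k) := by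
  classical
  refine ⟨?_, ?_, ?_⟩
  · intro M _ _ h
    exact model_hypTheory_iff.2 (model_genTheory_iff.1 h).1
  · intro A _ _ h
    exact exists_embedding' hk hkn A (model_hypTheory_iff.1 h)
  · intro A M N _ _ _ _ _ hM hN f g φ
    obtain ⟨hM1, hM2⟩ := model_genTheory_iff.1 hM
    obtain ⟨hN1, hN2⟩ := model_genTheory_iff.1 hN
    exact realize_iff_of_QFEq hM1 hN1 hM2 hN2 φ _ _
      ((QFEq_embedding f g).comp fun i : φ.freeVarFinset => (i : A))

/-- A model completion is unique: its models are those of `genTheory n k`. -/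
theorem model_gen_of_model {n k : ℕ} (hk : 1 ≤ k) (hkn : k ≤ n) {T : (hypLang k).Theory}
    (h : IsModelCompletion.{u} (hypTheory n k) T) (M : Type u) [(hypLang k).Structure M]
    [Nonempty M] (hM : M ⊨ T) : M ⊨ genTheory n k := by
  have hMU : M ⊨ hypTheory n k := h.1 M hM
  have hMh : IsHyp n k M := model_hypTheory_iff.1 hMU
  rw [model_genTheory_iff, ext_iff hMh]
  refine ⟨hMh, fun m F => ?_⟩
  rw [realize_extAx]
  intro y hy hpre
  obtain ⟨N', _, hN', ⟨e1⟩⟩ := exists_embedding' hk hkn M hMh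
  obtain ⟨hN'h, hN'E⟩ := model_genTheory_iff.1 hN'
  have : Nonempty N' := ⟨e1 (Classical.arbitrary M)⟩
  obtain ⟨N, _, hN, ⟨e2⟩⟩ := h.2.1 N' (model_hypTheory_iff.2 hN'h)
  have hax := realize_extAx.1 ((ext_iff hN'h).1 hN'E m F)
  obtain ⟨x', hx1, hx2⟩ := hax (fun i => e1 (y i)) (e1.injective.comp hy) (by
    intro Y hY
    obtain ⟨g, hg⟩ := hpre Y hY
    refine ⟨g, ?_⟩
    rw [rel_embedding e1 (fun i => y (Y (g i)))]
    exact hg)
  let e : M ↪[hypLang k] N := e2.comp e1
  let φ : (hypLang k).Formula M :=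
    ((extPost k m F).ex.toFormula).relabel (Sum.elim Empty.elim y)
  have key := h.2.2 M M N hMU hM hN (Embedding.refl _ M) e φ
  have hr : ∀ {P : Type u} [(hypLang k).Structure P] (f : M → P),
      φ.Realize f ↔ ∃ x, (∀ i, f (y i) ≠ x) ∧
        ∀ z : Fin k ↪ Fin m, (Rel k (Fin.cons (α := fun _ => P) x fun i => f (y (z i))) ↔
          Finset.univ.image (fun i => z i) ∈ F) := by
    intro P _ f
    rw [Formula.realize_relabel, BoundedFormula.realize_toFormula, BoundedFormula.realize_ex]
    refine exists_congr fun x => ?_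
    rw [realize_extPost]
    rfl
  have hN2 : φ.Realize e := by
    rw [hr]
    refine ⟨e2 x', fun i hi => hx1 i (e2.injective hi), fun z => ?_⟩
    rw [← hx2 z, ← rel_embedding e2]
    have : (fun i => e2 ((Fin.cons (α := fun _ => N') x' fun i => e1 (y (z i))) i)) =
        (Fin.cons (α := fun _ => N) (e2 x') fun i => e (y (z i)) : Fin (k + 1) → N) := by
      funext i
      refine Fin.cases ?_ (fun j => ?_) i
      · simp
      · simp [e]
    rw [this]
  have hM2 := (hr _).1 (key.2 hN2)
  exact hM2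

theorem model_of_model_gen {n k : ℕ} (hk : 1 ≤ k) (hkn : k ≤ n) {T : (hypLang k).Theory}
    (h : IsModelCompletion.{u} (hypTheory n k) T) (M : Type u) [(hypLang k).Structure M]
    [Nonempty M] (hM : M ⊨ genTheory n k) : M ⊨ T := by
  classical
  obtain ⟨hM1, hM2⟩ := model_genTheory_iff.1 hM
  obtain ⟨N, _, hN, ⟨e⟩⟩ := h.2.1 M (model_hypTheory_iff.2 hM1)
  have : Nonempty N := ⟨e (Classical.arbitrary M)⟩
  obtain ⟨hN1, hN2⟩ := model_genTheory_iff.1 (model_gen_of_model hk hkn h N hN)
  rw [Theory.model_iff] at hN ⊢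
  intro φ hφ
  refine (realize_iff_of_QFEq hM1 hN1 hM2 hN2 φ default default ?_).2 (hN φ hφ)
  exact ⟨fun i => Empty.elim i.1, fun x => Empty.elim (x 0).1⟩

end Pool.Agent.Keisler
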