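import Pool.Agent.Keisler.ModelComp
import Mathlib.Order.Filter.Bases.Finite
import Mathlib.Order.Filter.Ultrafilter.Basic

/-!
# Saturation for quantifier free types
-/

universe u v w

open FirstOrder Language Structure Filter Cardinal

namespace Pool.Agent.Keisler

open Classical in
/-- Saturation for quantifier free types. -/
def QFSat (n k : ℕ) (U : Type u) [(hypLang k).Structure U] (κ : Cardinal.{u}) : Prop :=
  ∀ P : Set U, #P < κ → ∀ F : Set (Finset U),
    (∀ Y : Finset U, (Y : Set U) ⊆ P → Y.card = n → Clique k Y →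
      ∃ Z ⊆ Y, Z.card = k ∧ Z ∉ F) →
    ∃ b, b ∉ P ∧ ∀ Z : Finset U, (Z : Set U) ⊆ P → Z.card = k →
      (HE k (insert b Z) ↔ Z ∈ F)

open Classical in
theorem saturated_of_qfSat {n k : ℕ} {U : Type u} [(hypLang k).Structure U]
    (hU : IsHyp n k U) (hE : Ext n k U) {κ : Cardinal.{u}} (hs : QFSat n k U κ) :
    Saturated (hypLang k) U κ := by
  intro A hA p hfin
  -- the ultrafilter
  let G : Set (Set U) :=
    {s | ∃ φ ∈ p, s = {x : U | φ.Realize (Sum.elim (fun a : A => (a : U)) (fun _ => x))}}
  have hG : NeBot (Filter.generate G) := by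
    rw [Filter.generate_neBot_iff]
    intro t ht htf
    have key : ∀ s : Set U, s ∈ t → ∃ φ ∈ p,
        s = {x : U | φ.Realize (Sum.elim (fun a : A => (a : U)) (fun _ => x))} :=
      fun s hs => ht hs
    choose! φ hφp hφe using key
    obtain ⟨x, hx⟩ := hfin (htf.toFinset.image φ) (by
      intro ψ hψ
      simp only [Finset.coe_image, Set.Finite.coe_toFinset, Set.mem_image] at hψ
      obtain ⟨s, hs, rfl⟩ := hψ
      exact hφp s hs)
    refine ⟨x, ?_⟩
    rw [Set.mem_sInter]
    intro s hs
    rw [hφe s hs]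
    exact hx (φ s) (Finset.mem_image_of_mem φ (htf.mem_toFinset.2 hs))
  let 𝒰 : Ultrafilter U := Ultrafilter.of (Filter.generate G)
  have h𝒰 : ∀ φ ∈ p, ∀ᶠ x in (𝒰 : Filter U),
      φ.Realize (Sum.elim (fun a : A => (a : U)) (fun _ => x)) := by
    intro φ hφ
    exact (Ultrafilter.of_le (Filter.generate G)) (Filter.mem_generate_of_mem ⟨φ, hφ, rfl⟩)
  by_cases hcase : ∃ a ∈ A, ∀ᶠ x in (𝒰 : Filter U), x = a
  · obtain ⟨a, ha, hxa⟩ := hcase
    refine ⟨a, fun φ hφ => ?_⟩
    obtain ⟨x, hx, rfl⟩ := ((h𝒰 φ hφ).and hxa).exists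
    exact hx
  · have hcase' : ∀ a ∈ A, ∀ᶠ x in (𝒰 : Filter U), x ≠ a := by
      intro a ha
      by_contra hcon
      exact hcase ⟨a, ha, by
        have := Ultrafilter.eventually_not.not.1 hcon
        exact not_not.1 this⟩
    have hne : ∀ a ∈ A, ∀ᶠ x in (𝒰 : Filter U), x ≠ a := by
      intro a ha
      exact hcase' a ha
    obtain ⟨b, hb, hbZ⟩ := hs A hA {Z | ∀ᶠ x in (𝒰 : Filter U), HE k (insert x Z)} (by
      intro Y hYA hYc hcl
      by_contra hcon
      push Not at hcon
      have h1 : ∀ᶠ x in (𝒰 : Filter U), ∀ Z ∈ Y.powersetCard k, HE k (insert x Z) := by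
        rw [Filter.eventually_all_finset]
        intro Z hZ
        rw [Finset.mem_powersetCard] at hZ
        exact hcon Z hZ.1 hZ.2
      have h2 : ∀ᶠ x in (𝒰 : Filter U), ∀ a ∈ Y, x ≠ a := by
        rw [Filter.eventually_all_finset]
        intro a ha
        exact hne a (hYA ha)
      obtain ⟨x, hx1, hx2⟩ := (h1.and h2).exists
      have hxY : x ∉ Y := fun hh => hx2 x hh rfl
      refine not_clique hU (s := insert x Y) (by rw [Finset.card_insert_of_notMem hxY, hYc]) ?_
      intro W hW hWc
      by_cases hxW : x ∈ W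
      · have := hx1 (W.erase x) (by
          rw [Finset.mem_powersetCard]
          refine ⟨?_, by rw [Finset.card_erase_of_mem hxW, hWc]; rfl⟩
          intro c hc'
          have h1 := Finset.mem_erase.1 hc'
          exact (Finset.mem_insert.1 (hW h1.2)).resolve_left h1.1)
        rwa [Finset.insert_erase hxW] at this
      · refine hcl W ?_ hWc
        intro c hc'
        refine (Finset.mem_insert.1 (hW hc')).resolve_left ?_
        rintro rfl
        exact hxW hc')
    refine ⟨b, fun φ hφ => ?_⟩
    -- the parameters occurring in `φ`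
    let β : Type u := {a : A // (Sum.inl a : A ⊕ Unit) ∈ φ.freeVarFinset}
    have hβ : Finite β := by
      apply Finite.of_injective (β := φ.freeVarFinset)
        (fun c : β => ⟨Sum.inl c.1, c.2⟩)
      intro c d hcd
      have := congrArg Subtype.val hcd
      exact Subtype.ext (Sum.inl.inj this)
    have : Fintype β := Fintype.ofFinite β
    let a0 : β → U := fun c => (c.1 : U)
    let A0 : Finset U := Finset.univ.image a0
    have hA0 : ∀ c ∈ A0, c ∈ A := by
      intro c hc
      obtain ⟨d, _, rfl⟩ := Finset.mem_image.1 hc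
      exact d.1.2
    have h1 : ∀ᶠ x in (𝒰 : Filter U), ∀ Z ∈ A0.powersetCard k,
        (HE k (insert x Z) ↔ HE k (insert b Z)) := by
      rw [Filter.eventually_all_finset]
      intro Z hZ
      rw [Finset.mem_powersetCard] at hZ
      have hb2 := hbZ Z (fun c hc => hA0 c (hZ.1 hc)) hZ.2
      by_cases hbh : HE k (insert b Z)
      · filter_upwards [hb2.1 hbh] with x hx
        exact ⟨fun _ => hbh, fun _ => hx⟩
      · have h3 : ¬ ∀ᶠ x in (𝒰 : Filter U), HE k (insert x Z) := fun hh => hbh (hb2.2 hh)
        rw [← Ultrafilter.eventually_not] at h3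
        filter_upwards [h3] with x hx
        exact ⟨fun hh => absurd hh hx, fun hh => absurd hh hbh⟩
    have h2 : ∀ᶠ x in (𝒰 : Filter U), ∀ a ∈ A0, x ≠ a := by
      rw [Filter.eventually_all_finset]
      intro a ha
      exact hne a (hA0 a ha)
    obtain ⟨x, hxφ, hx1, hx2⟩ := ((h𝒰 φ hφ).and (h1.and h2)).exists
    have hxa : ∀ c : β, a0 c ≠ x := fun c hc =>
      hx2 (a0 c) (Finset.mem_image_of_mem a0 (Finset.mem_univ c)) hc.symm
    have hba : ∀ c : β, a0 c ≠ b := fun c hc => hb (hc ▸ c.1.2)
    have hself : QFEq k a0 a0 := ⟨fun _ _ => Iff.rfl, fun _ => Iff.rfl⟩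
    have hQ : QFEq k (fun o : Option β => o.elim x a0) (fun o : Option β => o.elim b a0) := by
      refine hself.extend hU hU hxa hba fun J hJ => ?_
      refine hx1 _ (Finset.mem_powersetCard.2 ⟨?_, hJ⟩)
      exact Finset.image_subset_image (Finset.subset_univ _)
    let g : φ.freeVarFinset → Option β := fun i =>
      match h : i.1 with
      | Sum.inl a => some ⟨a, h ▸ i.2⟩
      | Sum.inr _ => none
    have hg : ∀ (y : U) (i : φ.freeVarFinset),
        (g i).elim y a0 = Sum.elim (fun a : A => (a : U)) (fun _ => y) i.1 := by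
      rintro y ⟨i, hi⟩
      cases i with
      | inl a => rfl
      | inr c => rfl
    refine (realize_iff_of_QFEq hU hU hE hE φ
      (Sum.elim (fun a : A => (a : U)) (fun _ => x))
      (Sum.elim (fun a : A => (a : U)) (fun _ => b)) ?_).1 hxφ
    have := hQ.comp g
    simp only [hg] at this
    exact this

open Classical in
theorem qfSat_of_saturated {n k : ℕ} {U : Type u} [(hypLang k).Structure U]
    (hU : IsHyp n k U) (hE : Ext n k U) {κ : Cardinal.{u}}
    (hs : Saturated (hypLang k) U κ) : QFSat n k U κ := by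
  intro P hP F hF
  let neF : P → (hypLang k).Formula (P ⊕ Unit) := fun c =>
    ((Term.var (Sum.inl c)).equal (Term.var (Sum.inr ()))).not
  let relF : (Fin k → P) → (hypLang k).Formula (P ⊕ Unit) := fun z =>
    (edgeSym k).formula
      (Fin.cons (α := fun _ => (hypLang k).Term (P ⊕ Unit)) (Term.var (Sum.inr ()))
        fun i => Term.var (Sum.inl (z i)))
  have hne : ∀ (c : P) (x : U),
      (neF c).Realize (Sum.elim (fun a : P => (a : U)) (fun _ => x)) ↔ (c : U) ≠ x := by
    intro c x
    simp [neF, Formula.realize_not, Formula.realize_equal]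
  have hrel : ∀ (z : Fin k → P) (x : U),
      (relF z).Realize (Sum.elim (fun a : P => (a : U)) (fun _ => x)) ↔
        Rel k (Fin.cons (α := fun _ => U) x fun i => (z i : U)) := by
    intro z x
    simp only [relF, Formula.realize_rel]
    have : (fun i => Term.realize (Sum.elim (fun a : P => (a : U)) (fun _ => x))
        ((Fin.cons (α := fun _ => (hypLang k).Term (P ⊕ Unit)) (Term.var (Sum.inr ()))
        fun i => Term.var (Sum.inl (z i))) i)) =
        (Fin.cons (α := fun _ => U) x fun i => (z i : U) : Fin (k + 1) → U) := by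
      funext i
      refine Fin.cases ?_ (fun j => ?_) i
      · simp
      · simp
    rw [this]
    rfl
  obtain ⟨b, hb⟩ := hs P hP
    {φ | (∃ c, φ = neF c) ∨
      (∃ z : Fin k → P, Function.Injective z ∧ (Finset.univ.image fun i => (z i : U)) ∈ F ∧
        φ = relF z) ∨
      (∃ z : Fin k → P, Function.Injective z ∧ (Finset.univ.image fun i => (z i : U)) ∉ F ∧
        φ = (relF z).not)} (by
    intro s hs
    -- parameters occurring
    have hpar : ∃ B : Finset U, (B : Set U) ⊆ P ∧ ∀ φ ∈ s,
        (∃ c : P, (c : U) ∈ B ∧ φ = neF c) ∨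
        (∃ z : Fin k → P, (∀ i, (z i : U) ∈ B) ∧ Function.Injective z ∧
          (Finset.univ.image fun i => (z i : U)) ∈ F ∧ φ = relF z) ∨
        (∃ z : Fin k → P, (∀ i, (z i : U) ∈ B) ∧ Function.Injective z ∧
          (Finset.univ.image fun i => (z i : U)) ∉ F ∧ φ = (relF z).not) := by
      clear hF
      induction s using Finset.induction_on with
      | empty => exact ⟨∅, by simp, by simp⟩
      | insert ψ s hψ ih =>
        obtain ⟨B, hB, hBs⟩ := ih (fun φ hφ => hs (by
          rw [Finset.coe_insert]; exact Or.inr hφ))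
        have hψp := hs (show ψ ∈ ((insert ψ s : Finset _) : Set _) by simp)
        have hmono : ∀ B' : Finset U, B ⊆ B' → ∀ φ ∈ s,
            (∃ c : P, (c : U) ∈ B' ∧ φ = neF c) ∨
            (∃ z : Fin k → P, (∀ i, (z i : U) ∈ B') ∧ Function.Injective z ∧
              (Finset.univ.image fun i => (z i : U)) ∈ F ∧ φ = relF z) ∨
            (∃ z : Fin k → P, (∀ i, (z i : U) ∈ B') ∧ Function.Injective z ∧
              (Finset.univ.image fun i => (z i : U)) ∉ F ∧ φ = (relF z).not) := by
          intro B' hBB' φ hφ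
          rcases hBs φ hφ with ⟨c, hc, h⟩ | ⟨z, hz, h⟩ | ⟨z, hz, h⟩
          · exact Or.inl ⟨c, hBB' hc, h⟩
          · exact Or.inr (Or.inl ⟨z, fun i => hBB' (hz i), h⟩)
          · exact Or.inr (Or.inr ⟨z, fun i => hBB' (hz i), h⟩)
        rcases hψp with ⟨c, hc⟩ | ⟨z, hz⟩ | ⟨z, hz⟩
        · refine ⟨insert (c : U) B, ?_, ?_⟩
          · rw [Finset.coe_insert]
            exact Set.insert_subset c.2 hB
          · intro φ hφ
            rcases Finset.mem_insert.1 hφ with rfl | hφ
            · exact Or.inl ⟨c, Finset.mem_insert_self _ _, hc⟩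
            · exact hmono _ (Finset.subset_insert _ _) φ hφ
        · refine ⟨(Finset.univ.image fun i => (z i : U)) ∪ B, ?_, ?_⟩
          · rw [Finset.coe_union]
            refine Set.union_subset ?_ hB
            intro a ha
            rw [Finset.mem_coe, Finset.mem_image] at ha
            obtain ⟨i, _, rfl⟩ := ha
            exact (z i).2
          · intro φ hφ
            rcases Finset.mem_insert.1 hφ with rfl | hφ
            · exact Or.inr (Or.inl ⟨z, fun i => Finset.mem_union_left _
                (Finset.mem_image_of_mem _ (Finset.mem_univ i)), hz⟩)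
            · exact hmono _ Finset.subset_union_right φ hφ
        · refine ⟨(Finset.univ.image fun i => (z i : U)) ∪ B, ?_, ?_⟩
          · rw [Finset.coe_union]
            refine Set.union_subset ?_ hB
            intro a ha
            rw [Finset.mem_coe, Finset.mem_image] at ha
            obtain ⟨i, _, rfl⟩ := ha
            exact (z i).2
          · intro φ hφ
            rcases Finset.mem_insert.1 hφ with rfl | hφ
            · exact Or.inr (Or.inr ⟨z, fun i => Finset.mem_union_left _
                (Finset.mem_image_of_mem _ (Finset.mem_univ i)), hz⟩)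
            · exact hmono _ Finset.subset_union_right φ hφ
    obtain ⟨B, hBP, hB⟩ := hpar
    obtain ⟨x, hx, hxZ⟩ := hE B F fun Y hY hYc hcl =>
      hF Y (fun a ha => hBP (hY ha)) hYc hcl
    have hzrel : ∀ z : Fin k → P, (∀ i, (z i : U) ∈ B) → Function.Injective z →
        (Rel k (Fin.cons (α := fun _ => U) x fun i => (z i : U)) ↔
          (Finset.univ.image fun i => (z i : U)) ∈ F) := by
      intro z hz hzi
      have hzi' : Function.Injective fun i => (z i : U) := Subtype.val_injective.comp hzi
      rw [rel_cons_iff hU x _ hzi' (fun i hi => hx (hi ▸ hz i))]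
      refine hxZ _ ?_ ?_
      · intro a ha
        obtain ⟨i, _, rfl⟩ := Finset.mem_image.1 ha
        exact hz i
      · rw [Finset.card_image_of_injective _ hzi']; simp
    refine ⟨x, fun φ hφ => ?_⟩
    rcases hB φ hφ with ⟨c, hc, rfl⟩ | ⟨z, hz, hzi, hzF, rfl⟩ | ⟨z, hz, hzi, hzF, rfl⟩
    · rw [hne]
      intro hh
      exact hx (hh ▸ hc)
    · rw [hrel, hzrel z hz hzi]
      exact hzF
    · rw [Formula.realize_not, hrel, hzrel z hz hzi]
      exact hzF)
  have hbP : b ∉ P := by
    intro hbP
    have := hb (neF ⟨b, hbP⟩) (Or.inl ⟨_, rfl⟩)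
    rw [hne] at this
    exact this rfl
  refine ⟨b, hbP, fun Z hZ hZc => ?_⟩
  obtain ⟨z, hz⟩ := exists_enum (fun c : P => (c : U)) Z (fun a ha => ⟨⟨a, hZ ha⟩, rfl⟩) hZc
  have hzi' : Function.Injective fun i => (z i : U) := Subtype.val_injective.comp z.injective
  have hr := rel_cons_iff hU b _ hzi' (fun i hi => hbP (hi ▸ (z i).2))
  rw [hz] at hr
  rw [← hr, ← hrel]
  by_cases hZF : Z ∈ F
  · have := hb (relF z) (Or.inr (Or.inl ⟨z, z.injective, by rw [hz]; exact hZF, rfl⟩))
    exact ⟨fun _ => hZF, fun _ => this⟩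
  · have := hb (relF z).not (Or.inr (Or.inr ⟨z, z.injective, by rw [hz]; exact hZF, rfl⟩))
    rw [Formula.realize_not] at this
    exact ⟨fun hh => absurd hh this, fun hh => absurd hh hZF⟩

end Pool.Agent.Keisler
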