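import Pool.Agent.Keisler.Defs
import Mathlib.Data.Fintype.Perm
import Mathlib.Data.Finset.Powerset
import Mathlib.Data.Fintype.EquivFin

/-!
# Semantics of the universal hypergraph theory in terms of finite sets
-/

universe u v

open FirstOrder Language Structure

namespace Pool.Agent.Keisler

/-- The relation of a structure. -/
def Rel (k : ℕ) {M : Type u} [(hypLang k).Structure M] (x : Fin (k + 1) → M) : Prop :=
  RelMap (edgeSym k) x

theorem realize_edgeFormula {k m : ℕ} {M : Type u} [(hypLang k).Structure M]
    (w : Fin (k + 1) → Fin m) (v : Empty → M) (x : Fin m → M) :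
    (edgeFormula w).Realize v x ↔ Rel k (fun i => x (w i)) := by
  simp [edgeFormula, Rel, BoundedFormula.realize_rel]

theorem realize_eqFormula {k m : ℕ} {M : Type u} [(hypLang k).Structure M]
    (i j : Fin m) (v : Empty → M) (x : Fin m → M) :
    (eqFormula (k := k) i j).Realize v x ↔ x i = x j := by
  simp [eqFormula, BoundedFormula.realize_bdEqual]

/-- Semantic version of `hypTheory n k`. -/
structure IsHyp (n k : ℕ) (M : Type u) [(hypLang k).Structure M] : Prop where
  symm : ∀ (σ : Equiv.Perm (Fin (k + 1))) (x : Fin (k + 1) → M),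
    Rel k x → Rel k (fun i => x (σ i))
  inj : ∀ x : Fin (k + 1) → M, Rel k x → Function.Injective x
  free : ∀ y : Fin (n + 1) → M, Function.Injective y →
    ∃ w : Fin (k + 1) ↪ Fin (n + 1), ¬ Rel k (fun i => y (w i))

theorem realize_symmAx {k : ℕ} {M : Type u} [(hypLang k).Structure M]
    (σ : Equiv.Perm (Fin (k + 1))) :
    M ⊨ symmAx k σ ↔ ∀ x : Fin (k + 1) → M, Rel k x → Rel k (fun i => x (σ i)) := by
  rw [Sentence.Realize, symmAx, BoundedFormula.realize_alls]
  simp only [BoundedFormula.realize_imp, realize_edgeFormula]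

theorem realize_irreflAx {k : ℕ} {M : Type u} [(hypLang k).Structure M]
    (i j : Fin (k + 1)) :
    M ⊨ irreflAx k i j ↔ ∀ x : Fin (k + 1) → M, Rel k x → x i ≠ x j := by
  rw [Sentence.Realize, irreflAx, BoundedFormula.realize_alls]
  simp only [BoundedFormula.realize_imp, realize_edgeFormula, BoundedFormula.realize_not,
    realize_eqFormula, ne_eq]

theorem realize_cliqueFreeAx {n k : ℕ} {M : Type u} [(hypLang k).Structure M] :
    M ⊨ cliqueFreeAx n k ↔ ∀ y : Fin (n + 1) → M, Function.Injective y →
      ∃ w : Fin (k + 1) ↪ Fin (n + 1), ¬ Rel k (fun i => y (w i)) := by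
  rw [Sentence.Realize, cliqueFreeAx, BoundedFormula.realize_alls]
  simp only [BoundedFormula.realize_not, BoundedFormula.realize_inf,
    BoundedFormula.realize_iInf, realize_edgeFormula, realize_eqFormula]
  refine forall_congr' fun y => ?_
  rw [not_and]
  refine imp_congr ?_ ?_
  · constructor
    · intro h a b hab
      by_contra hne
      exact h ⟨(a, b), hne⟩ hab
    · intro h p hp
      exact p.2 (h hp)
  · rw [not_forall]

theorem model_hypTheory_iff {n k : ℕ} {M : Type u} [(hypLang k).Structure M] :
    M ⊨ hypTheory n k ↔ IsHyp n k M := by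
  rw [Theory.model_iff]
  constructor
  · intro h
    refine ⟨fun σ => ?_, fun x hx i j hij => ?_, ?_⟩
    · exact realize_symmAx σ |>.1 (h _ (Or.inl ⟨σ, rfl⟩))
    · by_contra hne
      exact (realize_irreflAx i j).1 (h _ (Or.inr (Or.inl ⟨i, j, hne, rfl⟩))) x hx hij
    · exact realize_cliqueFreeAx.1 (h _ (Or.inr (Or.inr rfl)))
  · rintro h φ (⟨σ, rfl⟩ | ⟨i, j, hij, rfl⟩ | rfl)
    · exact (realize_symmAx σ).2 (h.symm σ)
    · exact (realize_irreflAx i j).2 fun x hx hx' => hij (h.inj x hx hx')
    · exact realize_cliqueFreeAx.2 h.free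

open Classical in
/-- The finite set `s` is an edge. -/
def HE (k : ℕ) {M : Type u} [(hypLang k).Structure M] (s : Finset M) : Prop :=
  ∃ x : Fin (k + 1) → M, Rel k x ∧ Finset.univ.image x = s

open Classical in
theorem HE.card {n k : ℕ} {M : Type u} [(hypLang k).Structure M] (h : IsHyp n k M)
    {s : Finset M} (hs : HE k s) : s.card = k + 1 := by
  obtain ⟨x, hx, rfl⟩ := hs
  rw [Finset.card_image_of_injective _ (h.inj x hx)]
  simp

open Classical in
theorem rel_iff {n k : ℕ} {M : Type u} [(hypLang k).Structure M] (h : IsHyp n k M)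
    (x : Fin (k + 1) → M) :
    Rel k x ↔ Function.Injective x ∧ HE k (Finset.univ.image x) := by
  constructor
  · intro hx
    exact ⟨h.inj x hx, x, hx, rfl⟩
  · rintro ⟨hi, y, hy, hyx⟩
    have hyi := h.inj y hy
    have key : ∀ i, ∃ j, y j = x i := by
      intro i
      have : x i ∈ Finset.univ.image y := by
        rw [hyx]; exact Finset.mem_image_of_mem _ (Finset.mem_univ _)
      simpa using this
    choose f hf using key
    have hfi : Function.Injective f := by
      intro a b hab
      apply hi
      rw [← hf a, ← hf b, hab]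
    have hfb : Function.Bijective f := Finite.injective_iff_bijective.1 hfi
    have := h.symm (Equiv.ofBijective f hfb) y hy
    simpa [hf] using this

/-- All `(k+1)`-subsets of `s` are edges. -/
def Clique (k : ℕ) {M : Type u} [(hypLang k).Structure M] (s : Finset M) : Prop :=
  ∀ t ⊆ s, t.card = k + 1 → HE k t

open Classical in
theorem Clique.mono {k : ℕ} {M : Type u} [(hypLang k).Structure M] {s t : Finset M}
    (hs : Clique k s) (hts : t ⊆ s) : Clique k t :=
  fun r hr hc => hs r (hr.trans hts) hc

open Classical in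
theorem not_clique {n k : ℕ} {M : Type u} [(hypLang k).Structure M] (h : IsHyp n k M)
    {s : Finset M} (hs : s.card = n + 1) : ¬ Clique k s := by
  intro hc
  let e : Fin (n + 1) ≃ s := (Finset.equivFinOfCardEq hs).symm
  obtain ⟨w, hw⟩ := h.free (fun i => (e i : M))
    (Subtype.val_injective.comp e.injective)
  apply hw
  rw [rel_iff h]
  have hinj : Function.Injective fun i => ((e (w i) : s) : M) :=
    Subtype.val_injective.comp (e.injective.comp w.injective)
  refine ⟨hinj, hc _ ?_ ?_⟩
  · intro a ha
    simp only [Finset.mem_image, Finset.mem_univ, true_and] at ha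
    obtain ⟨i, rfl⟩ := ha
    exact (e (w i)).2
  · rw [Finset.card_image_of_injective _ hinj]
    simp

open Classical in
/-- One point extension property. -/
def Ext (n k : ℕ) (M : Type u) [(hypLang k).Structure M] : Prop :=
  ∀ (B : Finset M) (F : Set (Finset M)),
    (∀ Y ⊆ B, Y.card = n → Clique k Y → ∃ Z ⊆ Y, Z.card = k ∧ Z ∉ F) →
    ∃ x, x ∉ B ∧ ∀ Z ⊆ B, Z.card = k → (HE k (insert x Z) ↔ Z ∈ F)

/-- Structure given by a family of `(k+1)`-subsets. -/
@[reducible] def structOf (k : ℕ) {V : Type v} (E : Finset V → Prop) :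
    (hypLang k).Structure V where
  funMap := fun f => Empty.elim f
  RelMap := fun {m} _ x => by
    classical
    exact Function.Injective x ∧ m = k + 1 ∧ E (Finset.univ.image x)

open Classical in
theorem rel_structOf (k : ℕ) {V : Type v} (E : Finset V → Prop) (x : Fin (k + 1) → V) :
    @Rel k V (structOf k E) x ↔ Function.Injective x ∧ E (Finset.univ.image x) := by
  unfold Rel
  change (Function.Injective x ∧ k + 1 = k + 1 ∧ E (Finset.univ.image x)) ↔ _
  simp

open Classical in
theorem HE_structOf (k : ℕ) {V : Type v} (E : Finset V → Prop) (s : Finset V) :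
    @HE k V (structOf k E) s ↔ s.card = k + 1 ∧ E s := by
  unfold HE
  constructor
  · rintro ⟨x, hx, rfl⟩
    rw [rel_structOf] at hx
    exact ⟨by rw [Finset.card_image_of_injective _ hx.1]; simp, hx.2⟩
  · rintro ⟨hc, hE⟩
    let e : Fin (k + 1) ≃ s := (Finset.equivFinOfCardEq hc).symm
    have him : Finset.univ.image (fun i => (e i : V)) = s := by
      ext a
      simp only [Finset.mem_image, Finset.mem_univ, true_and]
      constructor
      · rintro ⟨i, rfl⟩; exact (e i).2
      · intro ha; exact ⟨e.symm ⟨a, ha⟩, by simp⟩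
    refine ⟨fun i => (e i : V), ?_, him⟩
    rw [rel_structOf]
    refine ⟨Subtype.val_injective.comp e.injective, ?_⟩
    rw [him]; exact hE

open Classical in
theorem isHyp_structOf {n k : ℕ} {V : Type v} (E : Finset V → Prop)
    (hE : ∀ Y : Finset V, Y.card = n + 1 → ∃ W ⊆ Y, W.card = k + 1 ∧ ¬ E W) :
    @IsHyp n k V (structOf k E) := by
  letI := structOf k E
  refine ⟨fun σ x hx => ?_, fun x hx => ?_, fun y hy => ?_⟩
  · rw [rel_structOf] at hx ⊢
    refine ⟨hx.1.comp σ.injective, ?_⟩
    have : Finset.univ.image (fun i => x (σ i)) = Finset.univ.image x := by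
      ext a
      simp only [Finset.mem_image, Finset.mem_univ, true_and]
      constructor
      · rintro ⟨i, rfl⟩; exact ⟨σ i, rfl⟩
      · rintro ⟨i, rfl⟩; exact ⟨σ.symm i, by simp⟩
    rw [this]; exact hx.2
  · exact ((rel_structOf k E x).1 hx).1
  · obtain ⟨W, hW, hc, hn⟩ := hE (Finset.univ.image y)
      (by rw [Finset.card_image_of_injective _ hy]; simp)
    let e : Fin (k + 1) ≃ W := (Finset.equivFinOfCardEq hc).symm
    have key : ∀ i : Fin (k + 1), ∃ j, y j = (e i : V) := by
      intro i
      have := hW (e i).2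
      simpa using this
    choose w hw using key
    have hwi : Function.Injective w := by
      intro a b hab
      apply e.injective
      apply Subtype.val_injective
      change ((e a : W) : V) = (e b : V)
      rw [← hw a, ← hw b, hab]
    refine ⟨⟨w, hwi⟩, fun hr => hn ?_⟩
    rw [rel_structOf] at hr
    have him : Finset.univ.image (fun i => y (w i)) = W := by
      ext a
      simp only [Finset.mem_image, Finset.mem_univ, true_and, hw]
      constructor
      · rintro ⟨i, rfl⟩; exact (e i).2
      · intro ha; exact ⟨e.symm ⟨a, ha⟩, by simp⟩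
    have h2 := hr.2
    simp only [Function.Embedding.coeFn_mk] at h2
    rw [him] at h2
    exact h2

end Pool.Agent.Keisler
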