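import Pool.Agent.Keisler.Saturation

/-!
# Transfer of saturation from `T_{n+1,k}` to `T_{n,k}`
-/

universe u v w

open FirstOrder Language Structure Filter Cardinal

namespace Pool.Agent.Keisler

section

variable {I : Type u} {D : Ultrafilter I} {n k : ℕ}

theorem los_injOn {N : Type v} {β : Type w} (c : β → I → N) (J : Finset β)
    (h : Set.InjOn (fun j => um D (c j)) J) :
    ∀ᶠ t in (D : Filter I), Set.InjOn (fun j => c j t) J := by
  have key : ∀ᶠ t in (D : Filter I), ∀ i ∈ J, ∀ j ∈ J, i ≠ j → c i t ≠ c j t := by
    rw [Filter.eventually_all_finset]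
    intro i hi
    rw [Filter.eventually_all_finset]
    intro j hj
    by_cases hij : i = j
    · exact Filter.Eventually.of_forall fun t hh => absurd hij hh
    · have h1 : ¬ (um D (c i) = um D (c j)) := fun hh => hij (h hi hj hh)
      rw [um_eq, ← Ultrafilter.eventually_not] at h1
      filter_upwards [h1] with t ht _ using ht
  filter_upwards [key] with t ht
  intro i hi j hj hij
  by_contra hne
  exact ht i hi j hj hne hij

open Classical in
theorem rel_enum {U : Type v} [(hypLang k).Structure U] (hU : IsHyp n k U) {β : Type w}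
    (c : β → U) (J : Finset β) (g : Fin (k + 1) ↪ β) (hg : Finset.univ.image (fun i => g i) = J)
    (hc : Set.InjOn c J) : Rel k (fun i => c (g i)) ↔ HE k (J.image c) := by
  rw [rel_iff hU]
  have hinj : Function.Injective fun i => c (g i) := by
    intro i j hij
    apply g.injective
    refine hc ?_ ?_ hij
    · rw [← hg]; exact Finset.mem_coe.2 (Finset.mem_image_of_mem _ (Finset.mem_univ i))
    · rw [← hg]; exact Finset.mem_coe.2 (Finset.mem_image_of_mem _ (Finset.mem_univ j))
  have him : Finset.univ.image (fun i => c (g i)) = J.image c := by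
    rw [← hg, Finset.image_image]; rfl
  rw [him]
  simp [hinj]

theorem isHyp_UP {N : Type v} [(hypLang k).Structure N] [Nonempty N]
    (hN : IsHyp n k N) : IsHyp n k (UP D N) :=
  model_hypTheory_iff.1 (um_model (model_hypTheory_iff.2 hN))

open Classical in
theorem los_HE {N : Type v} [(hypLang k).Structure N] [Nonempty N]
    (hN : IsHyp n k N) {β : Type w} (c : β → I → N) (J : Finset β)
    (hJ : J.card = k + 1) (h : Set.InjOn (fun j => um D (c j)) J) :
    HE k (J.image fun j => um D (c j)) ↔ ∀ᶠ t in (D : Filter I), HE k (J.image fun j => c j t) := by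
  obtain ⟨g, hg⟩ := exists_enum (fun b : β => b) J (fun a _ => ⟨a, rfl⟩) hJ
  rw [← rel_enum (isHyp_UP hN) (fun j => um D (c j)) J g hg h, rel_um]
  refine Filter.eventually_congr ?_
  filter_upwards [los_injOn c J h] with t ht
  exact rel_enum hN (fun j => c j t) J g hg ht

end

/-- The edges of the hypergraph `N` with one new point, all sets containing the new point being
edges. -/
def plusEdge (k : ℕ) {N : Type u} [(hypLang k).Structure N] (W : Finset (Option N)) : Prop :=
  none ∈ W ∨ HE k W.eraseNone

open Classical in
theorem plusEdge_free {n k : ℕ} {N : Type u} [(hypLang k).Structure N] (hN : IsHyp n k N)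
    (Y : Finset (Option N)) (hY : Y.card = (n + 1) + 1) :
    ∃ W ⊆ Y, W.card = k + 1 ∧ ¬ plusEdge k W := by
  have h1 : n + 1 ≤ Y.eraseNone.card := by
    by_cases h : none ∈ Y
    · have := Finset.card_eraseNone_of_mem h
      omega
    · have := Finset.card_eraseNone_of_not_mem h
      omega
  obtain ⟨Y0, hY0, hc⟩ := Finset.exists_subset_card_eq h1
  have h2 := not_clique hN hc
  unfold Clique at h2
  push Not at h2
  obtain ⟨W0, hW0, hW0c, hW0n⟩ := h2
  refine ⟨W0.map Function.Embedding.some, ?_, by simpa using hW0c, ?_⟩
  · intro a ha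
    obtain ⟨b, hb, rfl⟩ := Finset.mem_map.1 ha
    exact Finset.mem_eraseNone.1 (hY0 (hW0 hb))
  · rintro (h | h)
    · simp at h
    · apply hW0n
      simpa using h

open Classical in
theorem image_insertNone {β : Type v} {γ : Type w} (J : Finset β) (c : Option β → γ) :
    J.insertNone.image c = insert (c none) (J.image fun j => c (some j)) := by
  ext a
  simp only [Finset.mem_image, Finset.mem_insert]
  constructor
  · rintro ⟨o, ho, rfl⟩
    cases o with
    | none => exact Or.inl rfl
    | some j => exact Or.inr ⟨j, by simpa using ho, rfl⟩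
  · rintro (rfl | ⟨j, hj, rfl⟩)
    · exact ⟨none, by simp, rfl⟩
    · exact ⟨some j, by simpa using hj, rfl⟩

open Classical in
/-- The data obtained from a regular ultrafilter: representatives of the parameters, the finite
sets of parameters active at an index, and an embedding of the active part of `N` together with
one new point into `M`. -/
theorem exists_data {n k : ℕ} {I : Type u} {D : Ultrafilter I} (hreg : Regular D)
    {M : Type u} [(hypLang k).Structure M] (hM2 : Ext (n + 1) k M)
    {N : Type u} [(hypLang k).Structure N] (hN1 : IsHyp n k N)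
    (P : Set (UP D N)) (hP : #P ≤ #I) :
    ∃ (rep : P → I → N) (S : I → Finset N) (f : I → Option N → M),
      (∀ p : P, um D (rep p) = p) ∧
      (∀ p : P, ∀ᶠ t in (D : Filter I), rep p t ∈ S t) ∧
      (∀ t, Set.InjOn (f t) (S t).insertNone) ∧
      (∀ t, ∀ W ⊆ (S t).insertNone, W.card = k + 1 →
        (HE k (W.image (f t)) ↔ plusEdge k W)) := by
  obtain ⟨E, hE, hEc, hEf⟩ := hreg
  have hPE : #P ≤ #E := by rw [hEc]; exact hP
  obtain ⟨ι⟩ : Nonempty (P ↪ E) := by rwa [Cardinal.le_def] at hPE
  choose rep0 hrep0 using fun p : UP D N => um_surj p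
  have hBfin : ∀ t : I, {p : P | t ∈ (ι p : Set I)}.Finite := by
    intro t
    have h1 := hEf t
    have h2 : Set.InjOn (fun p : P => (ι p : Set I)) {p : P | t ∈ (ι p : Set I)} :=
      fun p _ p' _ h => ι.injective (Subtype.ext h)
    refine Set.Finite.of_finite_image (h1.subset ?_) h2
    rintro _ ⟨p, hp, rfl⟩
    exact ⟨(ι p).2, hp⟩
  choose f hfi hfW using fun t => embed_fin (by omega : 1 ≤ n + 1) hM2
    (plusEdge k (N := N)) (plusEdge_free hN1)
    (((hBfin t).toFinset.image fun p : P => rep0 p t).insertNone)
  refine ⟨fun p => rep0 p, fun t => (hBfin t).toFinset.image fun p : P => rep0 p t, f,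
    fun p => hrep0 p, fun p => ?_, hfi, fun t W hW hc => ?_⟩
  · filter_upwards [hE (ι p) (ι p).2] with t ht
    exact Finset.mem_image_of_mem _ ((hBfin t).mem_toFinset.2 ht)
  · exact hfW t W hW hc

end Pool.Agent.Keisler
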