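import Pool.Agent.Keisler.Transfer

/-!
# Transfer of saturation from `T_{n+1,k}` to `T_{n,k}`: the forward translation
-/

universe u v w

open FirstOrder Language Structure Filter Cardinal

namespace Pool.Agent.Keisler

section

variable {n k : ℕ} {I : Type u} {D : Ultrafilter I}
    {M : Type u} [(hypLang k).Structure M] [Nonempty M]
    {N : Type u} [(hypLang k).Structure N] [Nonempty N]
    {P : Set (UP D N)} {rep : P → I → N} {S : I → Finset N} {f : I → Option N → M}

/-- The translated parameters. -/
def trans (rep : P → I → N) (f : I → Option N → M) (o : Option P) (t : I) : M :=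
  f t (o.map fun p => rep p t)

omit [Nonempty N] in
theorem good_inj (h1 : ∀ p : P, um D (rep p) = p)
    (h2 : ∀ p : P, ∀ᶠ t in (D : Filter I), rep p t ∈ S t) (J : Finset P) :
    ∀ᶠ t in (D : Filter I), (∀ p ∈ J, rep p t ∈ S t) ∧ Set.InjOn (fun p => rep p t) J := by
  have ha : ∀ᶠ t in (D : Filter I), ∀ p ∈ J, rep p t ∈ S t := by
    rw [Filter.eventually_all_finset]
    exact fun p _ => h2 p
  have hb : ∀ᶠ t in (D : Filter I), Set.InjOn (fun p => rep p t) J := by
    apply los_injOn
    intro p _ p' _ h
    simp only [h1] at h
    exact Subtype.ext h
  exact ha.and hb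

omit [Nonempty M] [Nonempty N] in
theorem trans_inj (h1 : ∀ p : P, um D (rep p) = p)
    (h2 : ∀ p : P, ∀ᶠ t in (D : Filter I), rep p t ∈ S t)
    (h3 : ∀ t, Set.InjOn (f t) (S t).insertNone) :
    Function.Injective fun o : Option P => um D (trans rep f o) := by
  intro o o' h
  simp only [um_eq, trans] at h
  have hmem : ∀ o : Option P, ∀ᶠ t in (D : Filter I),
      (o.map fun p => rep p t) ∈ (S t).insertNone := by
    intro o
    cases o with
    | none => exact Filter.Eventually.of_forall fun t => by simp
    | some p =>
      filter_upwards [h2 p] with t ht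
      simpa using ht
  have hmap : ∀ᶠ t in (D : Filter I),
      (o.map fun p => rep p t) = (o'.map fun p => rep p t) := by
    filter_upwards [h, hmem o, hmem o'] with t ht hto hto'
    exact h3 t hto hto' ht
  cases o with
  | none =>
    cases o' with
    | none => rfl
    | some p' =>
      obtain ⟨t, ht⟩ := hmap.exists
      simp at ht
  | some p =>
    cases o' with
    | none =>
      obtain ⟨t, ht⟩ := hmap.exists
      simp at ht
    | some p' =>
      have : um D (rep p) = um D (rep p') := by
        rw [um_eq]
        filter_upwards [hmap] with t ht
        simpa using ht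
      rw [h1, h1] at this
      rw [Subtype.ext this]

open Classical in
theorem trans_edge (hN1 : IsHyp n k N) (hM1 : IsHyp (n + 1) k M)
    (h1 : ∀ p : P, um D (rep p) = p)
    (h2 : ∀ p : P, ∀ᶠ t in (D : Filter I), rep p t ∈ S t)
    (h3 : ∀ t, Set.InjOn (f t) (S t).insertNone)
    (h4 : ∀ t, ∀ W ⊆ (S t).insertNone, W.card = k + 1 →
        (HE k (W.image (f t)) ↔ plusEdge k W))
    (J : Finset (Option P)) (hJ : J.card = k + 1) :
    HE k (J.image fun o => um D (trans rep f o)) ↔
      (none ∈ J ∨ HE k (J.eraseNone.image fun p : P => (p : UP D N))) := by
  rw [los_HE hM1 _ J hJ ((trans_inj h1 h2 h3).injOn)]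
  have key : ∀ᶠ t in (D : Filter I), (HE k (J.image fun o => trans rep f o t) ↔
      (none ∈ J ∨ HE k (J.eraseNone.image fun p => rep p t))) := by
    filter_upwards [good_inj h1 h2 J.eraseNone] with t ⟨hS, hinj⟩
    have hW : J.image (fun o => trans rep f o t) =
        (J.image fun o : Option P => o.map fun p => rep p t).image (f t) := by
      rw [Finset.image_image]; rfl
    have hWsub : (J.image fun o : Option P => o.map fun p => rep p t) ⊆ (S t).insertNone := by
      intro a ha
      obtain ⟨o, ho, rfl⟩ := Finset.mem_image.1 ha
      cases o with
      | none => simp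
      | some p => simpa using hS p (Finset.mem_eraseNone.2 ho)
    have hWcard : (J.image fun o : Option P => o.map fun p => rep p t).card = k + 1 := by
      rw [← hJ]
      apply Finset.card_image_of_injOn
      intro o ho o' ho' h
      cases o with
      | none =>
        cases o' with
        | none => rfl
        | some p' => simp at h
      | some p =>
        cases o' with
        | none => simp at h
        | some p' =>
          simp only [Option.map_some, Option.some.injEq] at h
          rw [hinj (Finset.mem_coe.2 (Finset.mem_eraseNone.2 ho))
            (Finset.mem_coe.2 (Finset.mem_eraseNone.2 ho')) h]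
    rw [hW, h4 t _ hWsub hWcard]
    unfold plusEdge
    refine or_congr ?_ ?_
    · simp
    · have : (J.image fun o : Option P => o.map fun p => rep p t).eraseNone =
          J.eraseNone.image fun p => rep p t := by
        ext a
        simp only [Finset.mem_eraseNone, Finset.mem_image]
        constructor
        · rintro ⟨o, ho, h⟩
          cases o with
          | none => simp at h
          | some p =>
            simp only [Option.map_some, Option.some.injEq] at h
            exact ⟨p, ho, h⟩
        · rintro ⟨p, hp, rfl⟩
          exact ⟨some p, hp, rfl⟩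
      rw [this]
  rw [Filter.eventually_congr key]
  by_cases hn : none ∈ J
  · simp [hn]
  · simp only [hn, false_or]
    have hc : J.eraseNone.card = k + 1 := by
      rw [Finset.card_eraseNone_of_not_mem hn, hJ]
    have hinj : Set.InjOn (fun p : P => um D (rep p)) J.eraseNone := by
      intro p _ p' _ h
      simp only [h1] at h
      exact Subtype.ext h
    rw [← los_HE hN1 (fun p => rep p) J.eraseNone hc hinj]
    simp only [h1]

end

end Pool.Agent.Keisler
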