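import Pool.Agent.Keisler.Transfer2

/-!
# Transfer of saturation from `T_{n+1,k}` to `T_{n,k}`: the main argument
-/

universe u v w

open FirstOrder Language Structure Filter Cardinal

namespace Pool.Agent.Keisler

section

variable {n k : ℕ} {I : Type u} {D : Ultrafilter I}
    {M : Type u} [(hypLang k).Structure M] [Nonempty M]
    {N : Type u} [(hypLang k).Structure N] [Nonempty N]
    {P : Set (UP D N)} {rep : P → I → N} {S : I → Finset N} {f : I → Option N → M}

open Classical in
/-- The translated pattern of edges. -/
def transF (P : Set (UP D N)) (rep : P → I → N) (f : I → Option N → M)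
    (F : Set (Finset (UP D N))) : Set (Finset (UP D M)) :=
  {Z' | um D (trans rep f none) ∈ Z' ∨
    ∃ Z : Finset P, Z.image (fun p => um D (trans rep f (some p))) = Z' ∧
      Z.image (fun p : P => (p : UP D N)) ∈ F}

open Classical in
theorem transF_ok (hN1 : IsHyp n k N) (hM1 : IsHyp (n + 1) k M)
    (h1 : ∀ p : P, um D (rep p) = p)
    (h2 : ∀ p : P, ∀ᶠ t in (D : Filter I), rep p t ∈ S t)
    (h3 : ∀ t, Set.InjOn (f t) (S t).insertNone)
    (h4 : ∀ t, ∀ W ⊆ (S t).insertNone, W.card = k + 1 →
        (HE k (W.image (f t)) ↔ plusEdge k W))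
    (F : Set (Finset (UP D N)))
    (hF : ∀ Y : Finset (UP D N), (Y : Set (UP D N)) ⊆ P → Y.card = n → Clique k Y →
      ∃ Z ⊆ Y, Z.card = k ∧ Z ∉ F)
    (Y : Finset (UP D M))
    (hY : (Y : Set (UP D M)) ⊆ Set.range fun o : Option P => um D (trans rep f o))
    (hYc : Y.card = n + 1) (hcl : Clique k Y) :
    ∃ Z ⊆ Y, Z.card = k ∧ Z ∉ transF P rep f F := by
  have hinj := trans_inj h1 h2 h3
  have hsome : Function.Injective fun p : P => um D (trans rep f (some p)) :=
    fun p p' h => Option.some.inj (hinj h)
  have hcoe : Function.Injective fun p : P => (p : UP D N) := Subtype.val_injective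
  let a' := um D (trans rep f none)
  have hc0 : n ≤ (Y.erase a').card := by
    have := Finset.pred_card_le_card_erase (s := Y) (a := a')
    omega
  obtain ⟨Y1, hY1, hY1c⟩ := Finset.exists_subset_card_eq hc0
  have hY1' : ∀ y ∈ Y1, ∃ p : P, um D (trans rep f (some p)) = y := by
    intro y hy
    have h5 := Finset.mem_erase.1 (hY1 hy)
    obtain ⟨o, ho⟩ := hY h5.2
    cases o with
    | none => exact absurd ho.symm h5.1
    | some p => exact ⟨p, ho⟩
  obtain ⟨J, hJ⟩ : ∃ J : Finset P, J.image (fun p => um D (trans rep f (some p))) = Y1 := by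
    obtain ⟨g, hg⟩ := exists_enum (fun p : P => um D (trans rep f (some p))) Y1 hY1' hY1c
    refine ⟨Finset.univ.image fun i => g i, ?_⟩
    rw [Finset.image_image]
    exact hg
  have hJc : J.card = n := by
    rw [← hY1c, ← hJ, Finset.card_image_of_injective _ hsome]
  have hY1Y : Y1 ⊆ Y := hY1.trans (Finset.erase_subset _ _)
  obtain ⟨Z, hZ, hZc, hZF⟩ := hF (J.image fun p : P => (p : UP D N)) (by
      intro y hy
      obtain ⟨p, _, rfl⟩ := Finset.mem_image.1 (Finset.mem_coe.1 hy)
      exact p.2) (by rw [Finset.card_image_of_injective _ hcoe, hJc]) (by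
      intro W hW hWc
      obtain ⟨K, hK, rfl⟩ := Finset.subset_image_iff.1 hW
      rw [Finset.card_image_of_injective _ hcoe] at hWc
      have hK' : K ⊆ J := by exact_mod_cast hK
      have h5 := trans_edge hN1 hM1 h1 h2 h3 h4 (K.map Function.Embedding.some)
        (by simpa using hWc)
      have h6 : (K.map Function.Embedding.some).image (fun o => um D (trans rep f o)) ⊆ Y := by
        intro y hy
        obtain ⟨o, ho, rfl⟩ := Finset.mem_image.1 hy
        obtain ⟨p, hp, rfl⟩ := Finset.mem_map.1 ho
        apply hY1Y
        rw [← hJ]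
        exact Finset.mem_image_of_mem _ (hK' hp)
      have h7 := hcl _ h6 (by
        rw [Finset.card_image_of_injective _ hinj]; simpa using hWc)
      rw [h5] at h7
      rcases h7 with h7 | h7
      · simp at h7
      · simpa using h7)
  obtain ⟨K, hK, rfl⟩ := Finset.subset_image_iff.1 hZ
  have hK' : K ⊆ J := by exact_mod_cast hK
  rw [Finset.card_image_of_injective _ hcoe] at hZc
  have hsub : K.image (fun p => um D (trans rep f (some p))) ⊆ Y1 := by
    rw [← hJ]; exact Finset.image_subset_image hK'
  refine ⟨K.image fun p => um D (trans rep f (some p)), hsub.trans hY1Y,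
    by rw [Finset.card_image_of_injective _ hsome, hZc], ?_⟩
  rintro (h | ⟨K', hK'e, hK'F⟩)
  · exact (Finset.mem_erase.1 (hY1 (hsub h))).1 rfl
  · rw [Finset.image_injective hsome hK'e] at hK'F
    exact hZF hK'F

omit [Nonempty M] [Nonempty N] in
open Classical in
/-- At each index, a point of `N` realizing the pulled back pattern. -/
theorem exists_pull (hk : 1 ≤ k) (hkn : k ≤ n) (hN2 : Ext n k N)
    (hM1 : IsHyp (n + 1) k M) (S : Finset N) (f : Option N → M)
    (h3 : Set.InjOn f S.insertNone)
    (h4 : ∀ W ⊆ S.insertNone, W.card = k + 1 → (HE k (W.image f) ↔ plusEdge k W))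
    (x : M) (hx : x ≠ f none) (S0 : Finset N) (hS0 : S0 ⊆ S)
    (hS0x : ∀ s ∈ S0, f (some s) ≠ x) :
    ∃ b : N, b ∉ S0 ∧ ∀ Z ⊆ S0, Z.card = k → (HE k (insert b Z) ↔
      (HE k (insert x (Z.image fun s => f (some s))) ∧
        ∀ z ∈ Z, HE k (insert x (insert (f none) ((Z.erase z).image fun s => f (some s)))))) := by
  have hinj : Set.InjOn (fun s => f (some s)) S := by
    intro s hs s' hs' h
    exact Option.some.inj (h3 (by simpa using hs) (by simpa using hs') h)
  have hnone : ∀ s ∈ S, f (some s) ≠ f none := by
    intro s hs h
    have := h3 (show some s ∈ (S.insertNone : Set (Option N)) by simpa using hs)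
      (show none ∈ (S.insertNone : Set (Option N)) by simp) h
    cases this
  apply hN2
  intro Y hY hYc hcl
  by_contra hcon
  push Not at hcon
  have hYS : Y ⊆ S := hY.trans hS0
  have hYinj : Set.InjOn (fun s => f (some s)) Y := hinj.mono (by exact_mod_cast hYS)
  have hn1 : f none ∉ Y.image fun s => f (some s) := by
    intro h
    obtain ⟨s, hs, he⟩ := Finset.mem_image.1 h
    exact hnone s (hYS hs) he
  have hn2 : x ∉ insert (f none) (Y.image fun s => f (some s)) := by
    intro h
    rcases Finset.mem_insert.1 h with h | h
    · exact hx h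
    · obtain ⟨s, hs, he⟩ := Finset.mem_image.1 h
      exact hS0x s (hY hs) he
  refine not_clique hM1 (s := insert x (insert (f none) (Y.image fun s => f (some s)))) ?_ ?_
  · rw [Finset.card_insert_of_notMem hn2, Finset.card_insert_of_notMem hn1,
      Finset.card_image_of_injOn hYinj, hYc]
  · intro W hW hWc
    by_cases hxW : x ∈ W
    · have hW' : W.erase x ⊆ insert (f none) (Y.image fun s => f (some s)) := by
        intro a ha
        have h1 := Finset.mem_erase.1 ha
        exact (Finset.mem_insert.1 (hW h1.2)).resolve_left h1.1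
      have hW'c : (W.erase x).card = k := by
        rw [Finset.card_erase_of_mem hxW, hWc]; rfl
      by_cases hfW : f none ∈ W.erase x
      · have hW'' : (W.erase x).erase (f none) ⊆ Y.image fun s => f (some s) := by
          intro a ha
          have h1 := Finset.mem_erase.1 ha
          exact (Finset.mem_insert.1 (hW' h1.2)).resolve_left h1.1
        obtain ⟨K, hK, hKe⟩ := Finset.subset_image_iff.1 hW''
        have hK' : K ⊆ Y := by exact_mod_cast hK
        have hKc : K.card = k - 1 := by
          have h5 : ((W.erase x).erase (f none)).card = k - 1 := by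
            rw [Finset.card_erase_of_mem hfW, hW'c]
          rw [← hKe, Finset.card_image_of_injOn (hYinj.mono hK)] at h5
          exact h5
        obtain ⟨z, hz, hzK⟩ : ∃ z ∈ Y, z ∉ K := by
          by_contra hc
          push Not at hc
          have := Finset.card_le_card (show Y ⊆ K from hc)
          omega
        have hZ : insert z K ⊆ Y := Finset.insert_subset hz hK'
        have h6 := hcon (insert z K) hZ (by
          rw [Finset.card_insert_of_notMem hzK, hKc]; omega)
        have h7 := h6.2 z (Finset.mem_insert_self _ _)
        rw [Finset.erase_insert hzK, hKe, Finset.insert_erase hfW,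
          Finset.insert_erase hxW] at h7
        exact h7
      · have hW'' : W.erase x ⊆ Y.image fun s => f (some s) := by
          intro a ha
          refine (Finset.mem_insert.1 (hW' ha)).resolve_left ?_
          rintro rfl
          exact hfW ha
        obtain ⟨K, hK, hKe⟩ := Finset.subset_image_iff.1 hW''
        have hK' : K ⊆ Y := by exact_mod_cast hK
        have hKc : K.card = k := by
          rw [← hKe, Finset.card_image_of_injOn (hYinj.mono hK)] at hW'c
          exact hW'c
        have h6 := (hcon K hK' hKc).1
        rw [hKe, Finset.insert_erase hxW] at h6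
        exact h6
    · have hWsub : W ⊆ Y.insertNone.image f := by
        rw [image_insertNone]
        intro a ha
        refine (Finset.mem_insert.1 (hW ha)).resolve_left ?_
        rintro rfl
        exact hxW ha
      obtain ⟨W0, hW0, hW0e⟩ := Finset.subset_image_iff.1 hWsub
      have hW0' : W0 ⊆ Y.insertNone := by exact_mod_cast hW0
      have hYS' : Y.insertNone ⊆ S.insertNone := by
        intro o ho
        rw [Finset.mem_insertNone] at ho ⊢
        exact fun a ha => hYS (ho a ha)
      have hW0c : W0.card = k + 1 := by
        rw [← hW0e, Finset.card_image_of_injOn (h3.mono (by exact_mod_cast hW0'.trans hYS'))] at hWc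
        exact hWc
      rw [← hW0e, h4 W0 (hW0'.trans hYS') hW0c]
      by_cases hnW : none ∈ W0
      · exact Or.inl hnW
      · right
        apply hcl
        · intro a ha
          rw [Finset.mem_eraseNone] at ha
          have := hW0' ha
          simpa using this
        · rw [Finset.card_eraseNone_of_not_mem hnW, hW0c]

open Classical in
theorem qfSat_transfer (hk : 1 ≤ k) (hkn : k ≤ n) [Infinite I] (hreg : Regular D)
    (hM : M ⊨ genTheory (n + 1) k)
    (hsat : Saturated (hypLang k) (UP D M) (Order.succ #I))
    (hN : N ⊨ genTheory n k) :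
    QFSat n k (UP D N) (Order.succ #I) := by
  obtain ⟨hM1, hM2⟩ := model_genTheory_iff.1 hM
  obtain ⟨hN1, hN2⟩ := model_genTheory_iff.1 hN
  obtain ⟨hU1, hU2⟩ := model_genTheory_iff.1 (um_model (D := D) hM)
  have hqf := qfSat_of_saturated hU1 hU2 hsat
  intro P hP F hF
  rw [Order.lt_succ_iff] at hP
  obtain ⟨rep, S, f, h1, h2, h3, h4⟩ := exists_data hreg hM2 hN1 P hP
  have hinj := trans_inj h1 h2 h3
  have hsome : Function.Injective fun p : P => um D (trans rep f (some p)) :=
    fun p p' h => Option.some.inj (hinj h)
  have hcoe : Function.Injective fun p : P => (p : UP D N) := Subtype.val_injective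
  -- realize the translated pattern
  obtain ⟨x, hx, hxZ⟩ := hqf (Set.range fun o : Option P => um D (trans rep f o)) (by
      rw [Order.lt_succ_iff]
      refine Cardinal.mk_range_le.trans ?_
      rw [Cardinal.mk_option]
      exact Cardinal.add_le_of_le (Cardinal.aleph0_le_mk I) hP
        (Cardinal.one_le_aleph0.trans (Cardinal.aleph0_le_mk I)))
    (transF P rep f F) (transF_ok hN1 hM1 h1 h2 h3 h4 F hF)
  obtain ⟨xr, rfl⟩ := um_surj x
  have hxo : ∀ o : Option P, um D xr ≠ um D (trans rep f o) := fun o h => hx ⟨o, h.symm⟩
  have hxo' : ∀ o : Option P, ∀ᶠ t in (D : Filter I), xr t ≠ trans rep f o t := by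
    intro o
    have := hxo o
    rw [ne_eq, um_eq, ← Ultrafilter.eventually_not] at this
    exact this
  -- pull back
  choose! br hbr1 hbr2 using fun (t : I) (ht : xr t ≠ f t none) =>
    exists_pull hk hkn hN2 hM1 (S t) (f t) (h3 t) (h4 t) (xr t) ht
      ((S t).filter fun s => f t (some s) ≠ xr t) (Finset.filter_subset _ _)
      (fun s hs => (Finset.mem_filter.1 hs).2)
  have hbP : um D br ∉ P := by
    intro hb
    have e1 : um D br = um D (rep ⟨um D br, hb⟩) := by rw [h1]
    rw [um_eq] at e1
    obtain ⟨t, ht1, ht2, ht3, ht4⟩ := (e1.and ((h2 ⟨um D br, hb⟩).and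
      ((hxo' none).and (hxo' (some ⟨um D br, hb⟩))))).exists
    refine hbr1 t ht3 ?_
    rw [Finset.mem_filter, ht1]
    exact ⟨ht2, fun h => ht4 h.symm⟩
  refine ⟨um D br, hbP, fun Z hZP hZc => ?_⟩
  -- lift `Z`
  obtain ⟨Z0, hZ0⟩ : ∃ Z0 : Finset P, Z0.image (fun p : P => (p : UP D N)) = Z := by
    obtain ⟨g, hg⟩ := exists_enum (fun p : P => (p : UP D N)) Z
      (fun a ha => ⟨⟨a, hZP ha⟩, rfl⟩) hZc
    refine ⟨Finset.univ.image fun i => g i, ?_⟩
    rw [Finset.image_image]
    exact hg
  have hZ0c : Z0.card = k := by
    rw [← hZc, ← hZ0, Finset.card_image_of_injective _ hcoe]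
  -- the left hand side
  let cN : Option P → I → N := fun o => o.elim br rep
  have hcN : Function.Injective fun o : Option P => um D (cN o) := by
    intro o o' h
    cases o with
    | none =>
      cases o' with
      | none => rfl
      | some p' =>
        have h' : um D br = um D (rep p') := h
        rw [h1] at h'
        exact absurd (h' ▸ p'.2) hbP
    | some p =>
      cases o' with
      | none =>
        have h' : um D (rep p) = um D br := h
        rw [h1] at h'
        exact absurd (h' ▸ p.2) hbP
      | some p' =>
        have h' : um D (rep p) = um D (rep p') := h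
        rw [h1, h1] at h'
        rw [Subtype.ext h']
  have hL : HE k (insert (um D br) Z) ↔
      ∀ᶠ t in (D : Filter I), HE k (insert (br t) (Z0.image fun p => rep p t)) := by
    have e := los_HE hN1 cN Z0.insertNone (by rw [Finset.card_insertNone, hZ0c]) hcN.injOn
    have e1 : Z0.insertNone.image (fun o => um D (cN o)) = insert (um D br) Z := by
      rw [image_insertNone, ← hZ0]
      congr 1
      apply Finset.image_congr
      intro p _
      exact h1 p
    have e2 : ∀ t, Z0.insertNone.image (fun o => cN o t) =
        insert (br t) (Z0.image fun p => rep p t) := by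
      intro t
      rw [image_insertNone]
      rfl
    rw [e1] at e
    simp only [e2] at e
    exact e
  rw [hL]
  -- the extended translated parameters
  let cX : Option (Option P) → I → M := fun o => o.elim xr (trans rep f)
  have hcX : Function.Injective fun o : Option (Option P) => um D (cX o) := by
    intro o o' h
    cases o with
    | none =>
      cases o' with
      | none => rfl
      | some p' => exact absurd h (hxo p')
    | some p =>
      cases o' with
      | none => exact absurd h.symm (hxo p)
      | some p' => rw [hinj h]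
  have hX : ∀ K : Finset (Option P), K.card = k →
      (HE k (insert (um D xr) (K.image fun o => um D (trans rep f o))) ↔
        ∀ᶠ t in (D : Filter I), HE k (insert (xr t) (K.image fun o => trans rep f o t))) := by
    intro K hK
    have e := los_HE hM1 cX K.insertNone (by rw [Finset.card_insertNone, hK]) hcX.injOn
    simp only [image_insertNone] at e
    exact e
  have hXF : ∀ K : Finset (Option P), K.card = k →
      (HE k (insert (um D xr) (K.image fun o => um D (trans rep f o))) ↔
        (K.image fun o => um D (trans rep f o)) ∈ transF P rep f F) := by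
    intro K hK
    refine hxZ _ ?_ (by rw [Finset.card_image_of_injective _ hinj, hK])
    intro a ha
    obtain ⟨o, _, rfl⟩ := Finset.mem_image.1 (Finset.mem_coe.1 ha)
    exact ⟨o, rfl⟩
  -- the conditions involving the new point always hold
  have hnew : ∀ᶠ t in (D : Filter I), ∀ p ∈ Z0,
      HE k (insert (xr t) ((Z0.erase p).insertNone.image fun o => trans rep f o t)) := by
    rw [Filter.eventually_all_finset]
    intro p hp
    have hc : (Z0.erase p).insertNone.card = k := by
      rw [Finset.card_insertNone, Finset.card_erase_of_mem hp, hZ0c]; omega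
    rw [← hX _ hc, hXF _ hc]
    left
    exact Finset.mem_image_of_mem _ (by simp)
  -- the main condition
  have hmain : (∀ᶠ t in (D : Filter I), HE k (insert (xr t)
      ((Z0.map Function.Embedding.some).image fun o => trans rep f o t))) ↔ Z ∈ F := by
    have hc : (Z0.map Function.Embedding.some).card = k := by
      rw [Finset.card_map, hZ0c]
    rw [← hX _ hc, hXF _ hc]
    have e : (Z0.map Function.Embedding.some).image (fun o => um D (trans rep f o)) =
        Z0.image fun p => um D (trans rep f (some p)) := by
      rw [Finset.map_eq_image, Finset.image_image]; rfl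
    rw [e]
    constructor
    · rintro (h | ⟨K, hK, hKF⟩)
      · obtain ⟨p, _, hp⟩ := Finset.mem_image.1 h
        exact absurd (hinj hp) (by simp)
      · rw [Finset.image_injective hsome hK, hZ0] at hKF
        exact hKF
    · intro h
      right
      exact ⟨Z0, rfl, by rw [hZ0]; exact h⟩
  rw [← hmain]
  refine Filter.eventually_congr ?_
  have hgx : ∀ᶠ t in (D : Filter I), ∀ p ∈ Z0, xr t ≠ trans rep f (some p) t := by
    rw [Filter.eventually_all_finset]
    exact fun p _ => hxo' (some p)
  filter_upwards [hnew, hgx, hxo' none, good_inj h1 h2 Z0] with t ht1 ht2 ht3 ⟨ht4, ht5⟩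
  have hsub : (Z0.image fun p => rep p t) ⊆ (S t).filter fun s => f t (some s) ≠ xr t := by
    intro a ha
    obtain ⟨p, hp, rfl⟩ := Finset.mem_image.1 ha
    exact Finset.mem_filter.2 ⟨ht4 p hp, fun h => ht2 p hp h.symm⟩
  have hcard : (Z0.image fun p => rep p t).card = k := by
    rw [Finset.card_image_of_injOn ht5, hZ0c]
  rw [hbr2 t ht3 _ hsub hcard]
  have e1 : ((Z0.image fun p => rep p t).image fun s => f t (some s)) =
      (Z0.map Function.Embedding.some).image fun o => trans rep f o t := by
    rw [Finset.image_image, Finset.map_eq_image, Finset.image_image]; rfl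
  rw [e1]
  refine and_iff_left ?_
  intro z hz
  obtain ⟨p, hp, rfl⟩ := Finset.mem_image.1 hz
  have e2 : (Z0.image fun p => rep p t).erase (rep p t) =
      (Z0.erase p).image fun p => rep p t := by
    ext a
    simp only [Finset.mem_erase, Finset.mem_image]
    constructor
    · rintro ⟨hne, p', hp', rfl⟩
      exact ⟨p', ⟨fun h => hne (by rw [h]), hp'⟩, rfl⟩
    · rintro ⟨p', ⟨hne, hp'⟩, rfl⟩
      exact ⟨fun h => hne (ht5 (Finset.mem_coe.2 hp') (Finset.mem_coe.2 hp) h), p', hp', rfl⟩
  have e3 : ((Z0.erase p).image fun p => rep p t).image (fun s => f t (some s)) =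
      (Z0.erase p).image fun p => trans rep f (some p) t := by
    rw [Finset.image_image]; rfl
  have := ht1 p hp
  rw [image_insertNone] at this
  rw [e2, e3]
  exact this

end

end Pool.Agent.Keisler
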