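import Pool.Agent.Keisler.ExtAx

/-!
# Ultrapowers
-/

universe u v w

open FirstOrder Language Structure Filter

namespace Pool.Agent.Keisler

/-- The ultrapower. -/
abbrev UP {I : Type u} (D : Ultrafilter I) (N : Type v) : Type (max u v) :=
  (D : Filter I).Product fun _ => N

section

variable {I : Type u} {D : Ultrafilter I} {N : Type v}

/-- The class of a function in the ultrapower. -/
def um (D : Ultrafilter I) (x : I → N) : UP D N := ((x : I → N) : UP D N)

theorem um_eq {x y : I → N} : um D x = um D y ↔ ∀ᶠ t in D, x t = y t :=
  Quotient.eq''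

theorem um_surj (p : UP D N) : ∃ x : I → N, um D x = p := by
  induction p using Quotient.inductionOn' with
  | h x => exact ⟨x, rfl⟩

variable {k : ℕ} [(hypLang k).Structure N] [Nonempty N]

theorem rel_um (x : Fin (k + 1) → I → N) :
    Rel k (fun i => um D (x i)) ↔ ∀ᶠ t in D, Rel k (fun i => x i t) := by
  have h := Ultraproduct.realize_formula_cast (u := D) (M := fun _ : I => N)
    ((edgeSym k).formula fun i : Fin (k + 1) => Term.var i) x
  simp only [Formula.realize_rel, Term.realize_var] at h
  exact h

theorem rel_um_ne {x : Fin (k + 1) → I → N} :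
    ¬ Rel k (fun i => um D (x i)) ↔ ∀ᶠ t in D, ¬ Rel k (fun i => x i t) := by
  rw [rel_um, Ultrafilter.eventually_not]

theorem um_model {T : (hypLang k).Theory} (h : N ⊨ T) : UP D N ⊨ T := by
  rw [Theory.model_iff] at h ⊢
  intro φ hφ
  rw [Ultraproduct.sentence_realize]
  exact Eventually.of_forall fun _ => h φ hφ

end

/-- Embeddings preserve the relation. -/
theorem rel_embedding {k : ℕ} {M : Type u} {N : Type v} [(hypLang k).Structure M]
    [(hypLang k).Structure N] (f : M ↪[hypLang k] N) (x : Fin (k + 1) → M) :
    Rel k (fun i => f (x i)) ↔ Rel k x :=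
  f.map_rel (edgeSym k) x

theorem QFEq_embedding {k : ℕ} {A : Type u} {M : Type v} {N : Type w}
    [(hypLang k).Structure A] [(hypLang k).Structure M]
    [(hypLang k).Structure N] (f : A ↪[hypLang k] M) (g : A ↪[hypLang k] N) :
    QFEq k (fun a => f a) (fun a => g a) :=
  ⟨fun i j => by rw [f.injective.eq_iff, g.injective.eq_iff],
    fun x => by rw [rel_embedding f x, rel_embedding g x]⟩

open Classical in
/-- Every hypergraph without large cliques embeds in a model of `genTheory n k`. -/
theorem exists_embedding {n k : ℕ} (hk : 1 ≤ k) (hkn : k ≤ n) (G : Type u)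
    [(hypLang k).Structure G] [Nonempty G] (hG : G ⊨ genTheory n k)
    (A : Type u) [(hypLang k).Structure A] [Nonempty A] (hA : IsHyp n k A) :
    ∃ (M : Type u) (_ : (hypLang k).Structure M), M ⊨ genTheory n k ∧
      Nonempty (A ↪[hypLang k] M) := by
  obtain ⟨hG1, hG2⟩ := model_genTheory_iff.1 hG
  have hfree : ∀ Y : Finset A, Y.card = n + 1 → ∃ W ⊆ Y, W.card = k + 1 ∧ ¬ HE k W := by
    intro Y hY
    have := not_clique hA hY
    unfold Clique at this
    push Not at this
    exact this
  choose f hf hfW using fun S : Finset A => embed_fin (by omega : 1 ≤ n) hG2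
    (fun W : Finset A => HE k W) hfree S
  let D : Ultrafilter (Finset A) := Ultrafilter.of atTop
  have hD : ∀ s : Finset A, ∀ᶠ t in (D : Filter (Finset A)), s ⊆ t := by
    intro s
    have h1 : ∀ᶠ t in (atTop : Filter (Finset A)), s ⊆ t := eventually_ge_atTop s
    exact (Ultrafilter.of_le atTop) h1
  refine ⟨UP D G, inferInstance, um_model hG, ⟨⟨⟨fun a => um D fun S => f S a, ?_⟩, ?_, ?_⟩⟩⟩
  · intro a b hab
    change um D (fun S => f S a) = um D (fun S => f S b) at hab
    rw [um_eq] at hab
    obtain ⟨t, ht1, ht2⟩ := (hab.and (hD {a, b})).exists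
    exact hf t (ht2 (by simp)) (ht2 (by simp)) ht1
  · intro m fn
    exact Empty.elim fn
  · intro m r x
    cases r
    have hmain : (∀ᶠ t in D, Rel k (fun i => f t (x i))) ↔ Rel k x := by
      have key : ∀ᶠ t in (D : Filter (Finset A)), (Rel k (fun i => f t (x i)) ↔ Rel k x) := by
        filter_upwards [hD (Finset.univ.image x)] with t ht
        have hx : ∀ i, x i ∈ t := fun i => ht (Finset.mem_image_of_mem x (Finset.mem_univ i))
        rw [rel_iff hG1, rel_iff hA]
        have hinj : Function.Injective (fun i => f t (x i)) ↔ Function.Injective x := by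
          constructor
          · intro h i j hij
            apply h
            change f t (x i) = f t (x j)
            rw [hij]
          · intro h i j hij
            exact h (hf t (hx i) (hx j) hij)
        rw [hinj]
        refine and_congr_right fun hxi => ?_
        have h2 := hfW t (Finset.univ.image x) ht
          (by rw [Finset.card_image_of_injective _ hxi]; simp)
        rw [Finset.image_image] at h2
        exact h2
      rw [Filter.eventually_congr key]
      simp
    have h3 := rel_um (D := D) (fun i : Fin (k + 1) => fun S => f S (x i))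
    exact h3.trans hmain

end Pool.Agent.Keisler
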